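import Mathlib
import Pool.Agent.Lib.Pa5725d.Parseval

/-!
# Taylor coefficients at the origin of functions on the unit disc
-/

set_option autoImplicit false

open Complex Metric Filter Topology Set
open scoped Real ComplexConjugate

namespace Pool.Agent.P187f6b

/-- The `n`-th Taylor coefficient of `f` at the origin. -/
noncomputable def tc (f : ℂ → ℂ) (n : ℕ) : ℂ := iteratedDeriv n f 0 / (n.factorial : ℂ)

lemma tc_hasSum {f : ℂ → ℂ} (hf : DifferentiableOn ℂ f (ball 0 1)) {z : ℂ} (hz : ‖z‖ < 1) :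
    HasSum (fun n => tc f n * z ^ n) (f z) := by
  have h := Complex.hasSum_taylorSeries_on_ball (c := 0) (r := 1) hf (z := z) (by simpa using hz)
  refine h.congr_fun (fun n => ?_)
  simp only [tc, sub_zero, smul_eq_mul]
  ring

lemma tc_summable {f : ℂ → ℂ} (hf : DifferentiableOn ℂ f (ball 0 1)) {s : ℝ} (hs0 : 0 ≤ s)
    (hs1 : s < 1) : Summable (fun n => ‖tc f n‖ * s ^ n) := by
  have h := (tc_hasSum hf (z := (s : ℂ))
    (by rw [Complex.norm_real, Real.norm_eq_abs, abs_of_nonneg hs0]; exact hs1)).summable.norm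
  refine h.congr (fun n => ?_)
  rw [norm_mul, norm_pow, Complex.norm_real, Real.norm_eq_abs, abs_of_nonneg hs0]

/-- A power series expansion valid on the disc determines the Taylor coefficients. -/
lemma tc_eq {f : ℂ → ℂ} {c : ℕ → ℂ}
    (h : ∀ z : ℂ, ‖z‖ < 1 → HasSum (fun n => c n * z ^ n) (f z)) (n : ℕ) : tc f n = c n := by
  have h1 : HasFPowerSeriesAt f (FormalMultilinearSeries.ofScalars ℂ c) 0 := by
    rw [hasFPowerSeriesAt_iff]
    filter_upwards [ball_mem_nhds (0 : ℂ) one_pos] with z hz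
    have hz' : ‖z‖ < 1 := by simpa using hz
    have := h z hz'
    rw [zero_add]
    refine this.congr_fun (fun n => ?_)
    simp [FormalMultilinearSeries.coeff_ofScalars, mul_comm]
  obtain ⟨r, hr⟩ := h1
  have h2 := hr.factorial_smul 1 n
  rw [tc, iteratedDeriv_eq_iteratedFDeriv]
  have h3 : iteratedFDeriv ℂ n f 0 (fun _ => 1) = (n.factorial : ℂ) * c n := by
    rw [← h2]
    simp [FormalMultilinearSeries.ofScalars]
  rw [h3]
  have : (n.factorial : ℂ) ≠ 0 := by exact_mod_cast n.factorial_ne_zero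
  field_simp

lemma tc_congr {f g : ℂ → ℂ} (hg : DifferentiableOn ℂ g (ball 0 1))
    (h : ∀ z : ℂ, ‖z‖ < 1 → f z = g z) (n : ℕ) : tc f n = tc g n :=
  tc_eq (fun z hz => by rw [h z hz]; exact tc_hasSum hg hz) n

lemma tc_zero (f : ℂ → ℂ) : tc f 0 = f 0 := by
  simp [tc]

end Pool.Agent.P187f6b
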