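import Mathlib
import Pool.Agent.Lib.P187f6b.Basic

/-!
# Parseval inequality and the Herglotz representation (averaged form)
-/

set_option autoImplicit false

open Complex Metric Filter Topology Set MeasureTheory
open scoped Real ComplexConjugate

namespace Pool.Agent.P187f6b

lemma norm_circ {s : ℝ} (hs : 0 ≤ s) (θ : ℝ) : ‖(s : ℂ) * cexp (θ * I)‖ = s := by
  rw [norm_mul, Complex.norm_exp_ofReal_mul_I, Complex.norm_real, Real.norm_eq_abs,
    abs_of_nonneg hs, mul_one]

/-- The sum of squares of the Taylor coefficients of a function bounded by one. -/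
lemma sum_sq_le {f : ℂ → ℂ} (hf : DifferentiableOn ℂ f (ball 0 1))
    (hb : ∀ z : ℂ, ‖z‖ < 1 → ‖f z‖ ≤ 1) (N : ℕ) :
    ∑ n ∈ Finset.range N, ‖tc f n‖ ^ 2 ≤ 1 := by
  have key : ∀ s : ℝ, s ∈ Ioo (0 : ℝ) 1 →
      ∑ n ∈ Finset.range N, ‖tc f n‖ ^ 2 * s ^ (2 * n) ≤ 1 := by
    intro s hs
    have h1 := Pa5725d.parseval (tc f) s hs.1.le (tc_summable hf hs.1.le hs.2)
    have h2 : ∀ θ : ℝ, ∑' n, tc f n * ((s : ℂ) * cexp (θ * I)) ^ n = f (s * cexp (θ * I)) := by
      intro θ
      exact (tc_hasSum hf (by rw [norm_circ hs.1.le]; exact hs.2)).tsum_eq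
    simp_rw [h2] at h1
    have hc : Continuous fun θ : ℝ => f (s * cexp (θ * I)) := by
      have := Pa5725d.continuous_powerSeries_circle (tc f) s hs.1.le (tc_summable hf hs.1.le hs.2)
      simp_rw [h2] at this
      exact this
    have h3 : ∫ θ in (0 : ℝ)..2 * π, ‖f (s * cexp (θ * I))‖ ^ 2 ≤ ∫ θ in (0 : ℝ)..2 * π, (1 : ℝ) := by
      refine intervalIntegral.integral_mono_on (by positivity) ?_ ?_ ?_
      · exact (hc.norm.pow 2).intervalIntegrable _ _
      · exact intervalIntegrable_const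
      · intro θ _
        have : ‖f (s * cexp (θ * I))‖ ≤ 1 := hb _ (by rw [norm_circ hs.1.le]; exact hs.2)
        exact pow_le_one₀ (norm_nonneg _) this
    rw [intervalIntegral.integral_const, sub_zero, smul_eq_mul, mul_one] at h3
    have h4 : (2 * π)⁻¹ * ∫ θ in (0 : ℝ)..2 * π, ‖f (s * cexp (θ * I))‖ ^ 2 ≤ 1 := by
      rw [inv_mul_le_iff₀ (by positivity), mul_one]
      exact h3
    refine le_trans ?_ h4
    exact sum_le_hasSum _ (fun n _ => by have := hs.1; positivity) h1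
  have hlim : Tendsto (fun s : ℝ => ∑ n ∈ Finset.range N, ‖tc f n‖ ^ 2 * s ^ (2 * n)) (𝓝[<] 1)
      (𝓝 (∑ n ∈ Finset.range N, ‖tc f n‖ ^ 2 * (1 : ℝ) ^ (2 * n))) := by
    refine Tendsto.mono_left ?_ nhdsWithin_le_nhds
    refine tendsto_finsetSum _ (fun n _ => ?_)
    exact ((continuous_const.mul (continuous_id.pow (2 * n))).tendsto 1)
  simp only [one_pow, mul_one] at hlim
  refine le_of_tendsto hlim ?_
  have : Ioo (0 : ℝ) 1 ∈ 𝓝[<] (1 : ℝ) := Ioo_mem_nhdsLT (by norm_num)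
  filter_upwards [this] with s hs using key s hs

lemma continuous_circ {f : ℂ → ℂ} (hf : DifferentiableOn ℂ f (ball 0 1)) {s : ℝ} (hs0 : 0 ≤ s)
    (hs1 : s < 1) : Continuous fun θ : ℝ => f (s * cexp (θ * I)) := by
  have h2 : ∀ θ : ℝ, ∑' n, tc f n * ((s : ℂ) * cexp (θ * I)) ^ n = f (s * cexp (θ * I)) := by
    intro θ
    exact (tc_hasSum hf (by rw [norm_circ hs0]; exact hs1)).tsum_eq
  have := Pa5725d.continuous_powerSeries_circle (tc f) s hs0 (tc_summable hf hs0 hs1)
  simp_rw [h2] at this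
  exact this

lemma integral_circ {f : ℂ → ℂ} (hf : DifferentiableOn ℂ f (ball 0 1)) {s : ℝ} (hs0 : 0 ≤ s)
    (hs1 : s < 1) (m : ℕ) :
    ∫ θ in (0 : ℝ)..2 * π, f (s * cexp (θ * I)) * cexp (-(m * θ * I)) =
      2 * π * (tc f m * s ^ m) := by
  have h2 : ∀ θ : ℝ, ∑' n, tc f n * ((s : ℂ) * cexp (θ * I)) ^ n = f (s * cexp (θ * I)) := by
    intro θ
    exact (tc_hasSum hf (by rw [norm_circ hs0]; exact hs1)).tsum_eq
  have := Pa5725d.integral_powerSeries_mul_exp (tc f) s hs0 (tc_summable hf hs0 hs1) m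
  simp_rw [h2] at this
  exact this

/-- Coefficients of `(1 + u z) / (1 - u z)`. -/
def hc (n : ℕ) (u : ℂ) : ℂ := if n = 0 then 1 else 2 * u ^ n

lemma integral_pos_mode {f : ℂ → ℂ} (hf : DifferentiableOn ℂ f (ball 0 1)) {s : ℝ} (hs0 : 0 < s)
    (hs1 : s < 1) {m : ℕ} (hm : m ≠ 0) :
    ∫ θ in (0 : ℝ)..2 * π, f (s * cexp (θ * I)) * cexp (m * θ * I) = 0 := by
  have hF : DifferentiableOn ℂ (fun z => z ^ m * f z) (ball 0 1) :=
    (differentiableOn_id.pow m).mul hf
  have h1 := integral_circ hF hs0.le hs1 0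
  rw [tc_zero] at h1
  simp only [zero_pow hm, zero_mul, mul_zero, CharP.cast_eq_zero, neg_zero, Complex.exp_zero,
    mul_one] at h1
  have h2 : ∀ θ : ℝ, ((s : ℂ) * cexp (θ * I)) ^ m * f (s * cexp (θ * I)) =
      (s : ℂ) ^ m * (f (s * cexp (θ * I)) * cexp (m * θ * I)) := by
    intro θ
    rw [mul_pow, ← Complex.exp_nat_mul]
    have : (m : ℂ) * (θ * I) = m * θ * I := by ring
    rw [this]
    ring
  simp_rw [h2] at h1
  rw [intervalIntegral.integral_const_mul] at h1
  have h3 : (s : ℂ) ^ m ≠ 0 := pow_ne_zero _ (by exact_mod_cast hs0.ne')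
  exact (mul_eq_zero.1 h1).resolve_left h3

lemma conj_integral (F : ℝ → ℂ) (a b : ℝ) :
    ∫ θ in a..b, conj (F θ) = conj (∫ θ in a..b, F θ) := by
  simp only [intervalIntegral, ← integral_conj, map_sub]

/-- Averaged Herglotz formula for the Taylor coefficients. -/
lemma herglotz_coeff {P : ℂ → ℂ} (hP : DifferentiableOn ℂ P (ball 0 1)) (h0 : (P 0).im = 0)
    {s : ℝ} (hs0 : 0 < s) (hs1 : s < 1) (n : ℕ) :
    ∫ θ in (0 : ℝ)..2 * π, ((P (s * cexp (θ * I))).re : ℂ) * hc n (cexp (-(θ * I))) =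
      2 * π * (tc P n * s ^ n) := by
  have hcont := continuous_circ hP hs0.le hs1
  have hI1 : ∀ k : ℕ, IntervalIntegrable
      (fun θ : ℝ => P (s * cexp (θ * I)) * cexp (-(k * θ * I))) volume 0 (2 * π) := by
    intro k
    exact (hcont.mul (by fun_prop)).intervalIntegrable _ _
  have hI2 : ∀ k : ℕ, IntervalIntegrable
      (fun θ : ℝ => conj (P (s * cexp (θ * I)) * cexp (k * θ * I))) volume 0 (2 * π) := by
    intro k
    exact (Complex.continuous_conj.comp (hcont.mul (by fun_prop))).intervalIntegrable _ _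
  have hsum : ∀ k : ℕ, ∫ θ in (0 : ℝ)..2 * π,
      (P (s * cexp (θ * I)) * cexp (-(k * θ * I)) + conj (P (s * cexp (θ * I)) * cexp (k * θ * I)))
      = 2 * π * (tc P k * s ^ k) + conj (∫ θ in (0 : ℝ)..2 * π, P (s * cexp (θ * I)) * cexp (k * θ * I)) := by
    intro k
    rw [intervalIntegral.integral_add (hI1 k) (hI2 k), integral_circ hP hs0.le hs1,
      conj_integral]
  have hre : ∀ (k : ℕ) (θ : ℝ), P (s * cexp (θ * I)) * cexp (-(k * θ * I)) +
      conj (P (s * cexp (θ * I)) * cexp (k * θ * I)) =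
      2 * (((P (s * cexp (θ * I))).re : ℂ) * cexp (-(k * θ * I))) := by
    intro k θ
    rw [map_mul, ← Complex.exp_conj]
    have h5 : conj ((k : ℂ) * θ * I) = -(k * θ * I) := by
      simp
    rw [h5, ← add_mul, Complex.add_conj]
    push_cast
    ring
  simp_rw [hre] at hsum
  by_cases hn : n = 0
  · subst hn
    have h6 := hsum 0
    have h7 := integral_circ hP hs0.le hs1 0
    simp only [CharP.cast_eq_zero, zero_mul, neg_zero, Complex.exp_zero, mul_one, pow_zero] at h6 h7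
    rw [h7, intervalIntegral.integral_const_mul] at h6
    simp only [hc, if_true, mul_one, pow_zero]
    rw [tc_zero] at h6 ⊢
    have h8 : conj (P 0) = P 0 := by
      apply Complex.ext <;> simp [h0]
    rw [map_mul, h8] at h6
    have h9 : conj (2 * (π : ℂ)) = 2 * π := by rw [map_mul, Complex.conj_ofReal, map_ofNat]
    rw [h9] at h6
    linear_combination h6 / 2
  · have h6 := hsum n
    rw [integral_pos_mode hP hs0 hs1 hn, map_zero, add_zero] at h6
    rw [← h6]
    congr 1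
    funext θ
    simp only [hc, if_neg hn]
    rw [← Complex.exp_nat_mul]
    have : (n : ℂ) * -(θ * I) = -(n * θ * I) := by ring
    rw [this]
    ring

end Pool.Agent.P187f6b
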