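import Mathlib

/-!
# The classes and the best constant
-/

set_option autoImplicit false

namespace Pool.Agent.P187f6b

/-- The class of analytic functions `f` on the open unit disc with `|f| < 1` there and
`f 0 = l`. -/
def FClass (l : ℝ) : Set (ℂ → ℂ) :=
  {f | DifferentiableOn ℂ f (Metric.ball 0 1) ∧ (∀ z ∈ Metric.ball (0 : ℂ) 1, ‖f z‖ < 1) ∧
    f 0 = (l : ℂ)}

/-- The sum `l + ∑_{n ≥ 1} |a_n| r ^ n`, where `a_n = f^(n)(0) / n!`. -/
noncomputable def maj (l : ℝ) (f : ℂ → ℂ) (r : ℝ) : ℝ :=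
  l + ∑' n : ℕ, ‖iteratedDeriv (n + 1) f 0 / ((n + 1).factorial : ℂ)‖ * r ^ (n + 1)

/-- The best constant `B l`. -/
noncomputable def BB (l : ℝ) : ℝ :=
  sSup {r : ℝ | 0 ≤ r ∧ r < 1 ∧ ∀ f ∈ FClass l, maj l f r ≤ 1}

end Pool.Agent.P187f6b
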