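import Mathlib
import Pool.Agent.Lib.P187f6b.Bounds

/-!
# The kernel sequences and their weighted square sums
-/

set_option autoImplicit false

open Complex Filter Topology Set
open scoped Real ComplexConjugate

namespace Pool.Agent.P187f6b

/-- Coefficients of the product with `1 / (1 - a z)`. -/
def S1 (a : ℂ) (p : ℕ → ℂ) : ℕ → ℂ
  | 0 => p 0
  | n + 1 => a * S1 a p n + p (n + 1)

/-- Coefficients of `(1 + u z) / ((1 - u z) (1 - a z) ^ 2)`. -/
def ee (a u : ℂ) (n : ℕ) : ℂ := S1 a (S1 a (fun k => hc k u)) n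

lemma S1_hc {a u : ℂ} (h : u - a ≠ 0) (n : ℕ) :
    S1 a (fun k => hc k u) n = 2 * u / (u - a) * u ^ n - (u + a) / (u - a) * a ^ n := by
  induction n with
  | zero =>
    simp only [S1, hc, if_true, pow_zero, mul_one]
    field_simp
    ring
  | succ n ih =>
    have e : S1 a (fun k => hc k u) (n + 1) = a * S1 a (fun k => hc k u) n + hc (n + 1) u := rfl
    rw [e, ih]
    simp only [hc, Nat.succ_ne_zero, if_false]
    field_simp
    ring

lemma ee_closed {a u : ℂ} (h : u - a ≠ 0) (n : ℕ) :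
    ee a u n = 2 * u / (u - a) ^ 2 * (u ^ (n + 1) - a ^ (n + 1)) -
      (u + a) / (u - a) * ((n : ℂ) + 1) * a ^ n := by
  unfold ee
  induction n with
  | zero =>
    simp only [S1, hc, if_true, CharP.cast_eq_zero]
    field_simp
    ring
  | succ n ih =>
    have : S1 a (S1 a (fun k => hc k u)) (n + 1) =
      a * S1 a (S1 a (fun k => hc k u)) n + S1 a (fun k => hc k u) (n + 1) := rfl
    rw [this, ih, S1_hc h]
    push_cast
    field_simp
    ring

/-- The difference `a ^ n - δ e_n(u)`. -/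
lemma X_closed {a u : ℂ} (d : ℂ) (h : u - a ≠ 0) (n : ℕ) :
    a ^ n - d * ee a u n =
      -(2 * d * u ^ 2 / (u - a) ^ 2) * u ^ n +
        (1 + 2 * d * u * a / (u - a) ^ 2 + d * (u + a) / (u - a) +
          d * (u + a) / (u - a) * n) * a ^ n := by
  rw [ee_closed h]
  field_simp
  ring

lemma hasSum_sq_mul_geometric {r : ℝ} (hr : ‖r‖ < 1) :
    HasSum (fun n : ℕ => (n : ℝ) ^ 2 * r ^ n) (r * (1 + r) / (1 - r) ^ 3) := by
  have h2 := hasSum_choose_mul_geometric_of_norm_lt_one 2 hr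
  have h1 := hasSum_choose_mul_geometric_of_norm_lt_one 1 hr
  have h0 := hasSum_choose_mul_geometric_of_norm_lt_one 0 hr
  have hne : 1 - r ≠ 0 := by
    have := (abs_lt.1 (by simpa using hr)).2
    linarith
  have h3 := ((h2.mul_left 2).sub (h1.mul_left 3)).add h0
  have e : (2 * (1 / (1 - r) ^ (2 + 1)) - 3 * (1 / (1 - r) ^ (1 + 1)) + 1 / (1 - r) ^ (0 + 1)) =
      r * (1 + r) / (1 - r) ^ 3 := by
    field_simp
    ring
  rw [e] at h3
  refine h3.congr_fun (fun n => ?_)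
  have hc2 : (((n + 2).choose 2 : ℕ) : ℝ) = ((n : ℝ) + 2) * ((n : ℝ) + 1) / 2 := by
    rw [Nat.cast_choose_two]
    push_cast
    ring
  have hc1 : (((n + 1).choose 1 : ℕ) : ℝ) = (n : ℝ) + 1 := by simp
  have hc0 : (((n + 0).choose 0 : ℕ) : ℝ) = 1 := by simp
  simp only [hc2, hc1, hc0]
  ring

/-- Weighted square sum of `A u ^ m + (B + C m) a ^ m`. -/
lemma hasSum_weighted (A B C u : ℂ) (hu : ‖u‖ = 1) {a q : ℝ} (ha0 : 0 ≤ a) (ha1 : a < 1)
    (hq0 : 0 < q) (hq1 : q < 1) :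
    HasSum (fun m : ℕ => q ^ m * ‖A * u ^ m + (B + C * m) * (a : ℂ) ^ m‖ ^ 2)
      (‖A‖ ^ 2 * (1 - q)⁻¹ + 2 * (A * conj B * (1 - q * a * u)⁻¹).re +
        2 * (A * conj C * (q * a * u / (1 - q * a * u) ^ 2)).re +
        (‖B‖ ^ 2 * (1 - q * a ^ 2)⁻¹ +
          2 * (B * conj C).re * (q * a ^ 2 / (1 - q * a ^ 2) ^ 2) +
          ‖C‖ ^ 2 * (q * a ^ 2 * (1 + q * a ^ 2) / (1 - q * a ^ 2) ^ 3))) := by
  have hw : ‖(q * a * u : ℂ)‖ < 1 := by
    rw [norm_mul, norm_mul, hu, mul_one, Complex.norm_real, Complex.norm_real, Real.norm_eq_abs,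
      Real.norm_eq_abs, abs_of_pos hq0, abs_of_nonneg ha0]
    nlinarith
  have hv : ‖(q * a ^ 2 : ℝ)‖ < 1 := by
    rw [Real.norm_eq_abs, abs_of_nonneg (by positivity)]
    nlinarith
  have hq : ‖q‖ < 1 := by rw [Real.norm_eq_abs, abs_of_pos hq0]; exact hq1
  have t1 := (hasSum_geometric_of_norm_lt_one hq).mul_left (‖A‖ ^ 2)
  have t2 := ((Complex.hasSum_re ((hasSum_geometric_of_norm_lt_one hw).mul_left
    (A * conj B))).mul_left 2)
  have t3 := ((Complex.hasSum_re ((hasSum_coe_mul_geometric_of_norm_lt_one hw).mul_left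
    (A * conj C))).mul_left 2)
  have t4 := (hasSum_geometric_of_norm_lt_one hv).mul_left (‖B‖ ^ 2)
  have t5 := (hasSum_coe_mul_geometric_of_norm_lt_one hv).mul_left (2 * (B * conj C).re)
  have t6 := (hasSum_sq_mul_geometric hv).mul_left (‖C‖ ^ 2)
  refine (((t1.add t2).add t3).add ((t4.add t5).add t6)).congr_fun (fun m => ?_)
  set z1 := A * u ^ m with hz1
  set z2 := (B + C * m) * (a : ℂ) ^ m with hz2
  have hexp : ‖z1 + z2‖ ^ 2 = ‖z1‖ ^ 2 + 2 * (z1 * conj z2).re + ‖z2‖ ^ 2 := by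
    rw [← Complex.normSq_eq_norm_sq, ← Complex.normSq_eq_norm_sq, ← Complex.normSq_eq_norm_sq,
      Complex.normSq_add]
    ring
  have e1 : ‖z1‖ ^ 2 = ‖A‖ ^ 2 := by rw [hz1, norm_mul, norm_pow, hu]; simp
  have e2 : ‖z2‖ ^ 2 = (‖B‖ ^ 2 + 2 * (B * conj C).re * m + ‖C‖ ^ 2 * m ^ 2) * (a ^ 2) ^ m := by
    rw [hz2, norm_mul, norm_pow, Complex.norm_real, Real.norm_eq_abs, abs_of_nonneg ha0, mul_pow]
    have h7 : ‖B + C * m‖ ^ 2 = ‖B‖ ^ 2 + 2 * (B * conj C).re * m + ‖C‖ ^ 2 * m ^ 2 := by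
      rw [← Complex.normSq_eq_norm_sq, ← Complex.normSq_eq_norm_sq, ← Complex.normSq_eq_norm_sq,
        Complex.normSq_add, Complex.normSq_mul, map_mul, Complex.conj_natCast]
      have : B * (conj C * (m : ℂ)) = ((m : ℝ) : ℂ) * (B * conj C) := by push_cast; ring
      rw [this, Complex.re_ofReal_mul, Complex.normSq_natCast]
      ring
    rw [h7]
    ring
  have e3 : (z1 * conj z2).re =
      (A * conj B * (a * u) ^ m).re + (A * conj C * (m * (a * u) ^ m)).re := by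
    rw [hz1, hz2, ← Complex.add_re]
    congr 1
    simp only [map_mul, map_add, map_pow, Complex.conj_natCast, Complex.conj_ofReal]
    ring
  rw [hexp, e1, e2, e3]
  have e4 : (A * conj B * (q * a * u) ^ m).re = q ^ m * (A * conj B * (a * u) ^ m).re := by
    rw [← Complex.re_ofReal_mul]
    congr 1
    push_cast
    ring
  have e5 : (A * conj C * (m * (q * a * u) ^ m)).re =
      q ^ m * (A * conj C * (m * (a * u) ^ m)).re := by
    rw [← Complex.re_ofReal_mul]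
    congr 1
    push_cast
    ring
  rw [e4, e5]
  have e6 : (q * a ^ 2) ^ m = q ^ m * (a ^ 2) ^ m := by rw [mul_pow]
  rw [e6]
  ring

end Pool.Agent.P187f6b
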