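import Mathlib
import Pool.Agent.Lib.P187f6b.Seq

/-!
# The numerical inequality at `11 / 25`
-/

set_option autoImplicit false
open Complex Filter Topology Set
open scoped Real ComplexConjugate
namespace Pool.Agent.P187f6b

noncomputable def cA (u : ℂ) : ℂ := -(2 * (7/50) * u ^ 2 / (u - 11/25) ^ 2) * u ^ 2
noncomputable def cB (u : ℂ) : ℂ :=
  (1 + 2 * (7/50) * u * (11/25) / (u - 11/25) ^ 2 + 3 * ((7/50) * (u + 11/25) / (u - 11/25))) * (11/25) ^ 2
noncomputable def cC (u : ℂ) : ℂ := ((7/50) * (u + 11/25) / (u - 11/25)) * (11/25) ^ 2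

noncomputable def Nn (x : ℝ) : ℝ :=
  (10014970052874450188466757132 - 14684841918048587551757332600 * x
    + 1459319363172648262484870000 * x ^ 2 + 8045064278243845316085875000 * x ^ 3
    - 5497688023164983571148437500 * x ^ 4 + 1252640046136670296875000000 * x ^ 5)
    / 19623259760439395904541015625

noncomputable def De (x : ℝ) : ℝ := 746/625 - 22/25 * x
noncomputable def Ga (x : ℝ) : ℝ := 16714/15625 - 66/125 * x

lemma closed (u : ℂ) (hu : ‖u‖ = 1) :
    ‖cA u‖ ^ 2 * (1 - (3/5 : ℝ))⁻¹ + 2 * (cA u * conj (cB u) * (1 - (3/5 : ℝ) * (11/25 : ℝ) * u)⁻¹).re +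
        2 * (cA u * conj (cC u) * ((3/5 : ℝ) * (11/25 : ℝ) * u / (1 - (3/5 : ℝ) * (11/25 : ℝ) * u) ^ 2)).re +
        (‖cB u‖ ^ 2 * (1 - (3/5 : ℝ) * (11/25 : ℝ) ^ 2)⁻¹ +
          2 * (cB u * conj (cC u)).re * ((3/5 : ℝ) * (11/25 : ℝ) ^ 2 / (1 - (3/5 : ℝ) * (11/25 : ℝ) ^ 2) ^ 2) +
          ‖cC u‖ ^ 2 * ((3/5 : ℝ) * (11/25 : ℝ) ^ 2 * (1 + (3/5 : ℝ) * (11/25 : ℝ) ^ 2) / (1 - (3/5 : ℝ) * (11/25 : ℝ) ^ 2) ^ 3))
      = Nn u.re / (De u.re ^ 2 * Ga u.re ^ 2) := by
  have hu0 : u ≠ 0 := by intro h; rw [h] at hu; simp at hu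
  have hcu : conj u = u⁻¹ := by
    rw [Complex.inv_def, Complex.normSq_eq_norm_sq, hu]; simp
  have hn : ∀ z : ℂ, (((‖z‖ ^ 2 : ℝ)) : ℂ) = z * conj z := by
    intro z
    rw [Complex.mul_conj, Complex.normSq_eq_norm_sq]
  have hr : ∀ z : ℂ, ((2 * z.re : ℝ) : ℂ) = z + conj z := by
    intro z
    rw [Complex.add_conj]
  have hx : (u.re : ℂ) = (u + u⁻¹) / 2 := by
    rw [← hcu, Complex.add_conj]; push_cast; ring
  have hD : u - 11/25 ≠ 0 := by
    intro h
    have h2 : u = ((11/25 : ℝ) : ℂ) := by push_cast; linear_combination h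
    rw [h2, Complex.norm_real] at hu
    norm_num at hu
  have hD2 : 1 - 11/25 * u ≠ 0 := by
    intro h
    have h2 : u = ((25/11 : ℝ) : ℂ) := by push_cast; linear_combination (-25/11) * h
    rw [h2, Complex.norm_real] at hu
    norm_num at hu
  have hG : 1 - 33/125 * u ≠ 0 := by
    intro h
    have h2 : u = ((125/33 : ℝ) : ℂ) := by push_cast; linear_combination (-125/33) * h
    rw [h2, Complex.norm_real] at hu
    norm_num at hu
  have hG2 : u - 33/125 ≠ 0 := by
    intro h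
    have h2 : u = ((33/125 : ℝ) : ℂ) := by push_cast; linear_combination h
    rw [h2, Complex.norm_real] at hu
    norm_num at hu
  rw [← Complex.ofReal_inj]
  rw [Complex.ofReal_add, Complex.ofReal_add, Complex.ofReal_add, Complex.ofReal_add,
    Complex.ofReal_add, Complex.ofReal_mul, Complex.ofReal_mul (‖cB u‖ ^ 2),
    Complex.ofReal_mul (2 * (cB u * conj (cC u)).re), Complex.ofReal_mul (‖cC u‖ ^ 2), hr, hr, hr, hn, hn, hn]
  simp only [cA, cB, cC, map_mul, map_div₀, map_sub, map_add, map_neg, map_one, map_pow, map_inv₀,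
    Complex.conj_ofReal, hcu, map_ofNat]
  have r1 : (u⁻¹ - 11/25 : ℂ) = (1 - 11/25*u)/u := by field_simp
  have r2 : (1 - (3/5) * (11/25) * u : ℂ) = 1 - 33/125 * u := by ring
  have r3 : (1 - (3/5) * (11/25) * u⁻¹ : ℂ) = (u - 33/125) / u := by
    field_simp; ring
  have r4 : ((De u.re : ℝ) : ℂ) = (u - 11/25) * ((1 - 11/25*u)/u) := by
    simp only [De]; push_cast; rw [hx]; field_simp; ring
  have r5 : ((Ga u.re : ℝ) : ℂ) = (1 - 33/125 * u) * ((u - 33/125) / u) := by
    simp only [Ga]; push_cast; rw [hx]; field_simp; ring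
  have r6 : ((Nn u.re : ℝ) : ℂ) = (10014970052874450188466757132 - 14684841918048587551757332600 * ((u + u⁻¹) / 2)
    + 1459319363172648262484870000 * ((u + u⁻¹) / 2) ^ 2 + 8045064278243845316085875000 * ((u + u⁻¹) / 2) ^ 3
    - 5497688023164983571148437500 * ((u + u⁻¹) / 2) ^ 4 + 1252640046136670296875000000 * ((u + u⁻¹) / 2) ^ 5)
    / 19623259760439395904541015625 := by
    simp only [Nn]; push_cast; rw [hx]
  have hR : ((Nn u.re / (De u.re ^ 2 * Ga u.re ^ 2) : ℝ) : ℂ) =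
      ((10014970052874450188466757132 - 14684841918048587551757332600 * ((u + u⁻¹) / 2)
    + 1459319363172648262484870000 * ((u + u⁻¹) / 2) ^ 2 + 8045064278243845316085875000 * ((u + u⁻¹) / 2) ^ 3
    - 5497688023164983571148437500 * ((u + u⁻¹) / 2) ^ 4 + 1252640046136670296875000000 * ((u + u⁻¹) / 2) ^ 5)
    / 19623259760439395904541015625) / (((u - 11/25) * ((1 - 11/25*u)/u)) ^ 2 *
      ((1 - 33/125 * u) * ((u - 33/125) / u)) ^ 2) := by
    rw [Complex.ofReal_div, Complex.ofReal_mul, Complex.ofReal_pow, Complex.ofReal_pow, r4, r5, r6]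
  rw [hR]
  push_cast
  rw [inv_inv, r1, r2, r3]
  obtain ⟨D, hD'⟩ : ∃ D : ℂ, D = u - 11/25 := ⟨_, rfl⟩
  obtain ⟨E, hE'⟩ : ∃ E : ℂ, E = 1 - 11/25 * u := ⟨_, rfl⟩
  obtain ⟨G, hG'⟩ : ∃ G : ℂ, G = 1 - 33/125 * u := ⟨_, rfl⟩
  obtain ⟨H, hH'⟩ : ∃ H : ℂ, H = u - 33/125 := ⟨_, rfl⟩
  rw [← hD'] at hD ⊢
  rw [← hE'] at hD2 ⊢
  rw [← hG'] at hG ⊢
  rw [← hH'] at hG2 ⊢
  norm_num
  field_simp
  rw [hD', hE', hG', hH']
  ring

/-- Numerator of `κ² + Q1 - Q2`. -/
noncomputable def Gn (x : ℝ) : ℝ :=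
  ((18847/22500) ^ 2 + (69829/390625 - 2772/15625 * x)) * (De x ^ 2 * Ga x ^ 2) - (1875/3502) * Nn x

lemma Gn_eq (x : ℝ) : Gn x = (9828481422045374161610074110818928 * ((1 + x) ^ 0 * (1 - x) ^ 5)
    + 13613605447889891859779820380986440 * ((1 + x) ^ 1 * (1 - x) ^ 4)
    + 7215586626582471761049819492515855 * ((1 + x) ^ 2 * (1 - x) ^ 3)
    + 1544236441374834066637400976630705 * ((1 + x) ^ 3 * (1 - x) ^ 2)
    + 134632895334742121075564619393090 * ((1 + x) ^ 4 * (1 - x) ^ 1)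
    + 3656377361167601372314990110728 * ((1 + x) ^ 5 * (1 - x) ^ 0))
    / 27831865550828799605369567871093750 := by
  simp only [Gn, De, Ga, Nn]
  ring

lemma P2_eq (x : ℝ) : Gn x ^ 2 - 4 * (18847/22500) ^ 2 * (69829/390625 - 2772/15625 * x) *
    (De x ^ 2 * Ga x ^ 2) ^ 2 = (8805229457534345915000113317043778340406966580853888428842434816 * ((1 + x) ^ 0 * (1 - x) ^ 16)
    + 48846125975909577200394980916184827311620595484004329258203190528 * ((1 + x) ^ 1 * (1 - x) ^ 15)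
    + 104042489343469783342775538388678412358905792951541726516556907616 * ((1 + x) ^ 2 * (1 - x) ^ 14)
    + 99694860594966746383653840609418639312896425116058806509072441744 * ((1 + x) ^ 3 * (1 - x) ^ 13)
    + 47711026368034193426613669349584679279633762070387970329508975361 * ((1 + x) ^ 4 * (1 - x) ^ 12)
    + 86387891132787628080834437814329096245439967691721930788465951092 * ((1 + x) ^ 5 * (1 - x) ^ 11)
    + 231691720497224417423631533921131149155495980884334752030658646160 * ((1 + x) ^ 6 * (1 - x) ^ 10)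
    + 311864015162749946403713822122139156741745940526749957126755758632 * ((1 + x) ^ 7 * (1 - x) ^ 9)
    + 241071775697745776904185222642359218157618649463534020497658062038 * ((1 + x) ^ 8 * (1 - x) ^ 8)
    + 116058671121560058709131911921139818163394257097316424205609503072 * ((1 + x) ^ 9 * (1 - x) ^ 7)
    + 35813153494092085980629468721917809036481716526610572003652034836 * ((1 + x) ^ 10 * (1 - x) ^ 6)
    + 7145146172678034454602212702806372348608584051163465797827088136 * ((1 + x) ^ 11 * (1 - x) ^ 5)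
    + 946083588797513930262801836040073541299214402351587781809162641 * ((1 + x) ^ 12 * (1 - x) ^ 4)
    + 92010425799153309166735172683324885143798630799669422479636044 * ((1 + x) ^ 13 * (1 - x) ^ 3)
    + 7747290893005490642852039675394730178598302770416036265978836 * ((1 + x) ^ 14 * (1 - x) ^ 2)
    + 522710942963933671717612269798827401385438180746556157382560 * ((1 + x) ^ 15 * (1 - x) ^ 1)
    + 17559602986061428458654540519236230272853610396039618749504 * ((1 + x) ^ 16 * (1 - x) ^ 0))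
    / 79320344580035674201063900250687765947077423334121704101562500000000 := by
  simp only [Gn, De, Ga, Nn]
  ring

lemma key_ineq (x : ℝ) (h1 : -1 ≤ x) (h2 : x ≤ 1) :
    √(69829/390625 - 2772/15625 * x) + √((1875/3502) * (Nn x / (De x ^ 2 * Ga x ^ 2))) ≤
      18847/22500 := by
  have hp : 0 ≤ 1 + x := by linarith
  have hm : 0 ≤ 1 - x := by linarith
  have hDe : 0 < De x := by simp only [De]; linarith
  have hGa : 0 < Ga x := by simp only [Ga]; linarith
  have hDG : 0 < De x ^ 2 * Ga x ^ 2 := by positivity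
  have hG : 0 ≤ Gn x := by
    rw [Gn_eq]
    positivity
  have hP : 0 ≤ Gn x ^ 2 - 4 * (18847/22500) ^ 2 * (69829/390625 - 2772/15625 * x) *
    (De x ^ 2 * Ga x ^ 2) ^ 2 := by
    rw [P2_eq]
    positivity
  set Q1 := 69829/390625 - 2772/15625 * x with hQ1
  have hQ1p : 0 ≤ Q1 := by rw [hQ1]; linarith
  have hQ1s : √Q1 ≤ 3/5 := by
    rw [Real.sqrt_le_left (by norm_num)]
    rw [hQ1]; norm_num; linarith
  set s1 := √Q1 with hs1
  have hs1sq : s1 ^ 2 = Q1 := Real.sq_sqrt hQ1p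
  have hs1p : 0 ≤ s1 := Real.sqrt_nonneg _
  have h3 : √((1875/3502) * (Nn x / (De x ^ 2 * Ga x ^ 2))) ≤ 18847/22500 - s1 := by
    rw [Real.sqrt_le_left (by linarith)]
    have h4 : (1875/3502) * (Nn x / (De x ^ 2 * Ga x ^ 2)) =
        (18847/22500) ^ 2 + Q1 - Gn x / (De x ^ 2 * Ga x ^ 2) := by
      simp only [Gn]
      field_simp
      ring
    rw [h4]
    have h5 : 2 * (18847/22500) * s1 * (De x ^ 2 * Ga x ^ 2) ≤ Gn x := by
      refine abs_le_of_sq_le_sq' ?_ hG |>.2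
      have : (2 * (18847/22500) * s1 * (De x ^ 2 * Ga x ^ 2)) ^ 2 =
        4 * (18847/22500) ^ 2 * Q1 * (De x ^ 2 * Ga x ^ 2) ^ 2 := by
        rw [← hs1sq]; ring
      rw [this]
      linarith
    have h6 : 2 * (18847/22500) * s1 ≤ Gn x / (De x ^ 2 * Ga x ^ 2) := by
      rw [le_div_iff₀ hDG]
      exact h5
    nlinarith
  linarith

end Pool.Agent.P187f6b
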