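import Mathlib
import Pool.Agent.Lib.P187f6b.Numeric

/-!
# The sum over the kernel sequence
-/

set_option autoImplicit false

open Complex Filter Topology Set
open scoped Real ComplexConjugate

namespace Pool.Agent.P187f6b

/-- The test sequence `a ^ n - δ e_n(u)` at `a = 11 / 25`, `δ = 7 / 50`. -/
noncomputable def XX (u : ℂ) (n : ℕ) : ℂ := (11/25 : ℂ) ^ n - (7/50) * ee (11/25) u n

lemma XX_zero (u : ℂ) : XX u 0 = 43/50 := by
  simp only [XX, ee, S1, hc, if_true]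
  norm_num

lemma XX_one (u : ℂ) : XX u 1 = 198/625 - 7/25 * u := by
  have : ee (11/25) u 1 = 11/25 * 1 + (11/25 * 1 + 2 * u ^ 1) := rfl
  rw [XX, this]
  ring

lemma norm_XX_one {u : ℂ} (hu : ‖u‖ = 1) :
    ‖XX u 1‖ = √(69829/390625 - 2772/15625 * u.re) := by
  rw [XX_one, ← Real.sqrt_sq (norm_nonneg (198/625 - 7/25 * u : ℂ))]
  congr 1
  have hu2 : u.re * u.re + u.im * u.im = 1 := by
    have := Complex.normSq_eq_norm_sq u
    rw [hu, Complex.normSq_apply] at this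
    linarith
  have e : (198/625 - 7/25 * u : ℂ) = (((198/625 : ℝ) : ℂ) - ((7/25 : ℝ) : ℂ) * u) := by
    push_cast; ring
  rw [e, ← Complex.normSq_eq_norm_sq, Complex.normSq_apply]
  simp only [Complex.sub_re, Complex.sub_im, Complex.ofReal_re, Complex.ofReal_im,
    Complex.re_ofReal_mul, Complex.im_ofReal_mul]
  linear_combination (49/625) * hu2

lemma sub_ne {u : ℂ} (hu : ‖u‖ = 1) : u - 11/25 ≠ 0 := by
  intro h
  have h2 : u = ((11/25 : ℝ) : ℂ) := by push_cast; linear_combination h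
  rw [h2, Complex.norm_real] at hu
  norm_num at hu

lemma XX_add_two {u : ℂ} (hu : ‖u‖ = 1) (m : ℕ) :
    XX u (m + 2) = cA u * u ^ m + (cB u + cC u * m) * (((11/25 : ℝ)) : ℂ) ^ m := by
  have h := X_closed (a := 11/25) (u := u) (7/50) (sub_ne hu) (m + 2)
  rw [XX, h]
  simp only [cA, cB, cC]
  push_cast
  rw [pow_add u, pow_add (11/25 : ℂ)]
  ring

/-- The closed form of the weighted square sum. -/
noncomputable def SS (x : ℝ) : ℝ := Nn x / (De x ^ 2 * Ga x ^ 2)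

lemma hasSum_XX {u : ℂ} (hu : ‖u‖ = 1) :
    HasSum (fun m : ℕ => (3/5 : ℝ) ^ m * ‖XX u (m + 2)‖ ^ 2) (SS u.re) := by
  have h := hasSum_weighted (cA u) (cB u) (cC u) u hu (a := 11/25) (q := 3/5) (by norm_num)
    (by norm_num) (by norm_num) (by norm_num)
  rw [closed u hu] at h
  refine h.congr_fun (fun m => ?_)
  rw [XX_add_two hu]

lemma tail_bound {u : ℂ} (hu : ‖u‖ = 1) {r : ℝ} (hr0 : 0 < r) (hr1 : r ≤ 25/47) (M : ℕ) :
    r * ∑ m ∈ Finset.range M, ‖XX u (m + 2)‖ * r ^ m ≤ √((1875/3502) * SS u.re) := by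
  have hr2 : r ^ 2 ≤ 625/2209 := by nlinarith
  have hcs : (∑ m ∈ Finset.range M, ‖XX u (m + 2)‖ * r ^ m) ^ 2 ≤
      (∑ m ∈ Finset.range M, (3/5 : ℝ) ^ m * ‖XX u (m + 2)‖ ^ 2) *
        ∑ m ∈ Finset.range M, (r ^ 2 * (5/3)) ^ m := by
    refine Finset.sum_sq_le_sum_mul_sum_of_sq_le_mul _ (fun i _ => by positivity)
      (fun i _ => by positivity) (fun i _ => ?_)
    rw [mul_pow, mul_pow, ← pow_mul, ← pow_mul]
    have : (3/5 : ℝ) ^ i * (5/3) ^ i = 1 := by rw [← mul_pow]; norm_num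
    refine le_of_eq ?_
    linear_combination (-(‖XX u (i + 2)‖ ^ 2 * r ^ (2 * i))) * this
  have h1 : ∑ m ∈ Finset.range M, (3/5 : ℝ) ^ m * ‖XX u (m + 2)‖ ^ 2 ≤ SS u.re :=
    sum_le_hasSum _ (fun n _ => by positivity) (hasSum_XX hu)
  have hS0 : 0 ≤ SS u.re := (hasSum_XX hu).nonneg (fun n => by positivity)
  have h2 : ∑ m ∈ Finset.range M, (r ^ 2 * (5/3)) ^ m ≤ (1 - r ^ 2 * (5/3))⁻¹ :=
    sum_le_hasSum _ (fun n _ => by positivity)
      (hasSum_geometric_of_lt_one (by positivity) (by nlinarith))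
  have hpos : 0 < 1 - r ^ 2 * (5/3) := by nlinarith
  have h3 : r ^ 2 * (1 - r ^ 2 * (5/3))⁻¹ ≤ 1875/3502 := by
    rw [← div_eq_mul_inv, div_le_iff₀ hpos]
    nlinarith
  have h4 : (r * ∑ m ∈ Finset.range M, ‖XX u (m + 2)‖ * r ^ m) ^ 2 ≤ (1875/3502) * SS u.re := by
    rw [mul_pow]
    calc r ^ 2 * (∑ m ∈ Finset.range M, ‖XX u (m + 2)‖ * r ^ m) ^ 2
        ≤ r ^ 2 * (SS u.re * (1 - r ^ 2 * (5/3))⁻¹) := by
          gcongr
          refine hcs.trans ?_
          exact mul_le_mul h1 h2 (by positivity) hS0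
      _ = (r ^ 2 * (1 - r ^ 2 * (5/3))⁻¹) * SS u.re := by ring
      _ ≤ (1875/3502) * SS u.re := by gcongr
  exact Real.le_sqrt_of_sq_le h4

/-- The sum bound at `δ = 7 / 50`. -/
lemma total_bound {u : ℂ} (hu : ‖u‖ = 1) {r : ℝ} (hr0 : 0 < r) (hr1 : r ≤ 25/47) (N : ℕ) :
    ∑ n ∈ Finset.range N, ‖XX u n‖ * r ^ n ≤ 1 / (1 - 11/25 * r) := by
  have hmono : ∑ n ∈ Finset.range N, ‖XX u n‖ * r ^ n ≤
      ∑ n ∈ Finset.range (N + 2), ‖XX u n‖ * r ^ n := by
    refine Finset.sum_le_sum_of_subset_of_nonneg ?_ (fun i _ _ => by positivity)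
    exact Finset.range_mono (by omega)
  refine hmono.trans ?_
  rw [Finset.sum_range_succ', Finset.sum_range_succ']
  have h1 : ∑ k ∈ Finset.range N, ‖XX u (k + 1 + 1)‖ * r ^ (k + 1 + 1) =
      r * (r * ∑ m ∈ Finset.range N, ‖XX u (m + 2)‖ * r ^ m) := by
    rw [Finset.mul_sum, Finset.mul_sum]
    refine Finset.sum_congr rfl (fun m _ => ?_)
    ring
  rw [h1]
  have h2 := tail_bound hu hr0 hr1 N
  have h3 := key_ineq u.re (by have := Complex.abs_re_le_norm u; rw [hu] at this; exact (abs_le.1 this).1)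
    (by have := Complex.abs_re_le_norm u; rw [hu] at this; exact (abs_le.1 this).2)
  rw [← norm_XX_one hu] at h3
  have h4 : ‖XX u 0‖ = 43/50 := by rw [XX_zero]; norm_num
  simp only [zero_add, pow_one, pow_zero, mul_one]
  rw [h4]
  have h5 : r * (r * ∑ m ∈ Finset.range N, ‖XX u (m + 2)‖ * r ^ m) + ‖XX u 1‖ * r ≤
      r * (18847/22500) := by
    have : r * ∑ m ∈ Finset.range N, ‖XX u (m + 2)‖ * r ^ m + ‖XX u 1‖ ≤ 18847/22500 := by
      have := h2
      simp only [SS] at this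
      linarith
    nlinarith
  have h6 : r * (18847/22500) + 43/50 ≤ 1 / (1 - 11/25 * r) := by
    rw [le_div_iff₀ (by linarith)]
    nlinarith
  linarith

end Pool.Agent.P187f6b
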