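import Mathlib
import Pool.Agent.Lib.P187f6b.Total

/-!
# The two regimes
-/

set_option autoImplicit false

open Complex Metric Filter Topology Set MeasureTheory
open scoped Real ComplexConjugate

namespace Pool.Agent.P187f6b

lemma hasSum_shift {y : ℕ → ℂ} {z v : ℂ} (h : HasSum (fun n => y n * z ^ n) v) (c : ℂ) :
    HasSum (fun n => (Nat.casesOn n c y : ℂ) * z ^ n) (c + z * v) := by
  have h1 : HasSum (fun n => (Nat.casesOn (n + 1) c y : ℂ) * z ^ (n + 1)) (z * v) := by
    refine (h.mul_left z).congr_fun (fun n => ?_)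
    simp only
    ring
  have h2 := (hasSum_nat_add_iff (f := fun n => (Nat.casesOn n c y : ℂ) * z ^ n) 1).1 h1
  simpa [add_comm] using h2

lemma tc_shift {f L : ℂ → ℂ} {c k : ℂ} (hL : DifferentiableOn ℂ L (ball 0 1))
    (h : ∀ z : ℂ, ‖z‖ < 1 → f z = c + k * z * L z) (n : ℕ) : tc f (n + 1) = k * tc L n := by
  have := tc_eq (f := f) (c := fun n => (Nat.casesOn n c (fun m => k * tc L m) : ℂ))
    (fun z hz => by
      rw [h z hz]
      have h1 := hasSum_shift (y := fun m => k * tc L m) (z := z) (v := k * L z)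
        (by
          refine ((tc_hasSum hL hz).mul_left k).congr_fun (fun n => ?_)
          ring) c
      have h2 : c + k * z * L z = c + z * (k * L z) := by ring
      rw [h2]
      exact h1) (n + 1)
  exact this

lemma tc_add {f g : ℂ → ℂ} (hf : DifferentiableOn ℂ f (ball 0 1))
    (hg : DifferentiableOn ℂ g (ball 0 1)) (n : ℕ) :
    tc (fun z => f z + g z) n = tc f n + tc g n :=
  tc_eq (c := fun n => tc f n + tc g n) (fun z hz => by
    refine ((tc_hasSum hf hz).add (tc_hasSum hg hz)).congr_fun (fun n => ?_)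
    ring) n

lemma tc_div {F P : ℂ → ℂ} {a : ℂ} (hF : DifferentiableOn ℂ F (ball 0 1))
    (h : ∀ z : ℂ, ‖z‖ < 1 → F z * (1 - a * z) = P z) (n : ℕ) : tc F n = S1 a (tc P) n := by
  have h0 : tc F 0 = tc P 0 := by
    rw [tc_zero, tc_zero, ← h 0 (by simp)]; ring
  have hs : ∀ m, tc P (m + 1) = tc F (m + 1) - a * tc F m := by
    intro m
    have hG : DifferentiableOn ℂ (fun z => -(a * z * F z)) (ball 0 1) :=
      (((differentiableOn_const a).mul differentiableOn_id).mul hF).neg
    have hFG : DifferentiableOn ℂ (fun z => F z + -(a * z * F z)) (ball 0 1) := hF.add hG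
    have e1 : tc P (m + 1) = tc (fun z => F z + -(a * z * F z)) (m + 1) := by
      refine tc_congr hFG (fun z hz => ?_) _
      rw [← h z hz]; ring
    have e2 : tc (fun z => -(a * z * F z)) (m + 1) = -a * tc F m :=
      tc_shift (c := 0) (k := -a) hF (fun z _ => by ring) m
    rw [e1, tc_add hF hG, e2]
    ring
  induction n with
  | zero => exact h0
  | succ n ih =>
    have : S1 a (tc P) (n + 1) = a * S1 a (tc P) n + tc P (n + 1) := rfl
    rw [this, ← ih, hs]
    ring

lemma tc_geom {a : ℂ} (ha : ‖a‖ < 1) (n : ℕ) : tc (fun z => (1 - a * z)⁻¹) n = a ^ n :=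
  tc_eq (c := fun n => a ^ n) (fun z hz => by
    have : ‖a * z‖ < 1 := by
      rw [norm_mul]
      calc ‖a‖ * ‖z‖ ≤ ‖a‖ * 1 := by gcongr
        _ < 1 := by rw [mul_one]; exact ha
    refine (hasSum_geometric_of_norm_lt_one this).congr_fun (fun n => ?_)
    rw [mul_pow]) n

lemma S1_mul (a w : ℂ) (p : ℕ → ℂ) (n : ℕ) : S1 a (fun k => w * p k) n = w * S1 a p n := by
  induction n with
  | zero => rfl
  | succ n ih =>
    have e1 : S1 a (fun k => w * p k) (n + 1) = a * S1 a (fun k => w * p k) n + w * p (n + 1) := rfl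
    have e2 : S1 a p (n + 1) = a * S1 a p n + p (n + 1) := rfl
    rw [e1, e2, ih]; ring

lemma S1_cont {X : Type*} [TopologicalSpace X] (a : ℂ) (φ : ℕ → X → ℂ)
    (h : ∀ n, Continuous (φ n)) (n : ℕ) : Continuous (fun x => S1 a (fun k => φ k x) n) := by
  induction n with
  | zero => exact h 0
  | succ n ih => exact (continuous_const.mul ih).add (h (n + 1))

lemma S1_integral (a : ℂ) (φ : ℕ → ℝ → ℂ) (q : ℕ → ℂ) (x y : ℝ)
    (hc : ∀ n, Continuous (φ n)) (h : ∀ n, ∫ θ in x..y, φ n θ = q n) (n : ℕ) :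
    ∫ θ in x..y, S1 a (fun k => φ k θ) n = S1 a q n := by
  induction n with
  | zero => exact h 0
  | succ n ih =>
    have e1 : ∀ θ, S1 a (fun k => φ k θ) (n + 1) = a * S1 a (fun k => φ k θ) n + φ (n + 1) θ :=
      fun θ => rfl
    simp_rw [e1]
    have i1 : IntervalIntegrable (fun θ => a * S1 a (fun k => φ k θ) n) volume x y :=
      (continuous_const.mul (S1_cont a φ hc n)).intervalIntegrable _ _
    have i2 : IntervalIntegrable (fun θ => φ (n + 1) θ) volume x y :=
      (hc _).intervalIntegrable _ _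
    rw [intervalIntegral.integral_add i1 i2, intervalIntegral.integral_const_mul, ih, h]
    rfl

lemma hc_cont (n : ℕ) : Continuous (fun θ : ℝ => hc n (cexp (-(θ * I)))) := by
  unfold hc
  split_ifs
  · exact continuous_const
  · fun_prop

/-- Integral representation of the double convolution. -/
lemma ee_integral {P : ℂ → ℂ} (hP : DifferentiableOn ℂ P (ball 0 1)) (h0 : (P 0).im = 0)
    (a : ℂ) {s : ℝ} (hs0 : 0 < s) (hs1 : s < 1) (n : ℕ) :
    ∫ θ in (0 : ℝ)..2 * π, ((P (s * cexp (θ * I))).re : ℂ) * ee a (cexp (-(θ * I))) n =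
      2 * π * S1 a (S1 a (fun k => tc P k * s ^ k)) n := by
  have hcP := continuous_circ hP hs0.le hs1
  have hcR : Continuous (fun θ : ℝ => ((P (s * cexp (θ * I))).re : ℂ)) :=
    Complex.continuous_ofReal.comp (Complex.continuous_re.comp hcP)
  have h1 : ∀ θ : ℝ, ((P (s * cexp (θ * I))).re : ℂ) * ee a (cexp (-(θ * I))) n =
      S1 a (fun m => S1 a (fun k => ((P (s * cexp (θ * I))).re : ℂ) * hc k (cexp (-(θ * I)))) m) n := by
    intro θ
    simp_rw [S1_mul]
    rfl
  simp_rw [h1]
  have h2 : ∀ k, ∫ θ in (0 : ℝ)..2 * π, ((P (s * cexp (θ * I))).re : ℂ) * hc k (cexp (-(θ * I))) =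
      (2 * π) * (tc P k * s ^ k) := fun k => herglotz_coeff hP h0 hs0 hs1 k
  have h3 := S1_integral a (fun k θ => ((P (s * cexp (θ * I))).re : ℂ) * hc k (cexp (-(θ * I))))
    (fun k => (2 * π) * (tc P k * s ^ k)) 0 (2 * π)
    (fun k => hcR.mul (hc_cont k)) h2
  have h4 := S1_integral a
    (fun m θ => S1 a (fun k => ((P (s * cexp (θ * I))).re : ℂ) * hc k (cexp (-(θ * I)))) m)
    (fun m => S1 a (fun k => (2 * π) * (tc P k * s ^ k)) m) 0 (2 * π)
    (fun m => S1_cont a _ (fun k => hcR.mul (hc_cont k)) m) h3 n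
  rw [h4]
  simp_rw [S1_mul]

end Pool.Agent.P187f6b
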