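import Mathlib
import Pool.Agent.Lib.P187f6b.Core

/-!
# The two regimes: Cauchy-Schwarz and Herglotz
-/

set_option autoImplicit false

open Complex Metric Filter Topology Set MeasureTheory
open scoped Real ComplexConjugate

namespace Pool.Agent.P187f6b

/-- The reduced function. -/
noncomputable def LL (a : ℝ) (g : ℂ → ℂ) (z : ℂ) : ℂ := g z / (1 - a * z * g z)

lemma azg_lt {a : ℝ} (ha0 : 0 ≤ a) (ha1 : a < 1) {z w : ℂ} (hz : ‖z‖ < 1) (hw : ‖w‖ ≤ 1) :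
    ‖(a : ℂ) * z * w‖ < 1 := by
  rw [norm_mul, norm_mul, Complex.norm_real, Real.norm_eq_abs, abs_of_nonneg ha0]
  calc a * ‖z‖ * ‖w‖ ≤ a * 1 * 1 := by gcongr
    _ < 1 := by linarith

lemma one_sub_ne {w : ℂ} (hw : ‖w‖ < 1) : 1 - w ≠ 0 := by
  intro h
  have : w = 1 := by linear_combination -h
  rw [this] at hw
  simp at hw

lemma den_ne {a : ℝ} (ha0 : 0 ≤ a) (ha1 : a < 1) {z w : ℂ} (hz : ‖z‖ < 1) (hw : ‖w‖ ≤ 1) :
    1 - (a : ℂ) * z * w ≠ 0 := one_sub_ne (azg_lt ha0 ha1 hz hw)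

lemma LL_diff {a : ℝ} (ha0 : 0 ≤ a) (ha1 : a < 1) {g : ℂ → ℂ}
    (hg : DifferentiableOn ℂ g (ball 0 1)) (hb : ∀ z : ℂ, ‖z‖ < 1 → ‖g z‖ ≤ 1) :
    DifferentiableOn ℂ (LL a g) (ball 0 1) := by
  refine hg.div ?_ (fun z hz => den_ne ha0 ha1 (by simpa using hz) (hb z (by simpa using hz)))
  exact (differentiableOn_const _).sub (((differentiableOn_const _).mul differentiableOn_id).mul hg)

lemma mobius_norm_le {a : ℝ} (ha0 : 0 ≤ a) (ha1 : a < 1) {w : ℂ} (hw : ‖w‖ ≤ 1) :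
    ‖(a - w) / (1 - a * w)‖ ≤ 1 := by
  have h1 : ‖(a : ℂ) * w‖ < 1 := by
    rw [norm_mul, Complex.norm_real, Real.norm_eq_abs, abs_of_nonneg ha0]
    nlinarith [norm_nonneg w]
  have h2 : 1 - (a : ℂ) * w ≠ 0 := one_sub_ne h1
  rw [norm_div, div_le_one (norm_pos_iff.2 h2)]
  refine (abs_le_of_sq_le_sq' ?_ (norm_nonneg _)).2
  rw [← Complex.normSq_eq_norm_sq, ← Complex.normSq_eq_norm_sq, Complex.normSq_apply,
    Complex.normSq_apply]
  have h3 : w.re * w.re + w.im * w.im ≤ 1 := by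
    rw [← Complex.normSq_apply, Complex.normSq_eq_norm_sq]
    exact pow_le_one₀ (norm_nonneg _) hw
  simp only [Complex.sub_re, Complex.sub_im, Complex.ofReal_re, Complex.ofReal_im,
    Complex.re_ofReal_mul, Complex.im_ofReal_mul, Complex.one_re, Complex.one_im]
  nlinarith [mul_nonneg (sub_nonneg.2 h3) (show 0 ≤ 1 - a * a by nlinarith)]

/-- The square sum of the coefficients of the reduced function. -/
lemma LL_sq_sum {a : ℝ} (ha0 : 0 ≤ a) (ha1 : a < 1) {g : ℂ → ℂ}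
    (hg : DifferentiableOn ℂ g (ball 0 1)) (hb : ∀ z : ℂ, ‖z‖ < 1 → ‖g z‖ ≤ 1) (N : ℕ) :
    (1 - a ^ 2) * ∑ n ∈ Finset.range N, ‖tc (LL a g) n‖ ^ 2 ≤ 1 := by
  have hL := LL_diff ha0 ha1 hg hb
  have hf : ∀ z : ℂ, ‖z‖ < 1 → ((a : ℂ) - z * g z) / (1 - a * (z * g z)) =
      a + (-(1 - a ^ 2)) * z * LL a g z := by
    intro z hz
    have h1 := den_ne ha0 ha1 hz (hb z hz)
    have h2 : 1 - (a : ℂ) * (z * g z) ≠ 0 := by rw [← mul_assoc]; exact h1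
    rw [LL]
    rw [← mul_assoc] at h2 ⊢
    field_simp
    ring
  have hfd : DifferentiableOn ℂ (fun z : ℂ => (a : ℂ) + (-(1 - a ^ 2)) * z * LL a g z) (ball 0 1) :=
    (differentiableOn_const _).add (((differentiableOn_const _).mul differentiableOn_id).mul hL)
  have hfb : ∀ z : ℂ, ‖z‖ < 1 → ‖(a : ℂ) + (-(1 - a ^ 2)) * z * LL a g z‖ ≤ 1 := by
    intro z hz
    rw [← hf z hz]
    refine mobius_norm_le ha0 ha1 ?_
    rw [norm_mul]
    calc ‖z‖ * ‖g z‖ ≤ 1 * 1 := by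
          gcongr
          exact hb z hz
      _ = 1 := one_mul 1
  have h3 := sum_sq_le hfd hfb (N + 1)
  rw [Finset.sum_range_succ'] at h3
  have h4 : ∀ n, tc (fun z : ℂ => (a : ℂ) + (-(1 - a ^ 2)) * z * LL a g z) (n + 1) =
      (-(1 - a ^ 2)) * tc (LL a g) n := fun n => tc_shift hL (fun z _ => rfl) n
  have h5 : tc (fun z : ℂ => (a : ℂ) + (-(1 - a ^ 2)) * z * LL a g z) 0 = a := by
    rw [tc_zero]; simp
  simp_rw [h4] at h3
  rw [h5] at h3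
  have h6 : ∀ n, ‖(-(1 - (a : ℂ) ^ 2)) * tc (LL a g) n‖ ^ 2 =
      (1 - a ^ 2) ^ 2 * ‖tc (LL a g) n‖ ^ 2 := by
    intro n
    rw [norm_mul, mul_pow]
    congr 1
    have : (-(1 - (a : ℂ) ^ 2)) = ((-(1 - a ^ 2) : ℝ) : ℂ) := by push_cast; ring
    rw [this, Complex.norm_real, Real.norm_eq_abs, sq_abs]
    ring
  simp_rw [h6] at h3
  rw [← Finset.mul_sum, Complex.norm_real, Real.norm_eq_abs, sq_abs] at h3
  have hpos : 0 < 1 - a ^ 2 := by nlinarith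
  have h7 : (1 - a ^ 2) * ((1 - a ^ 2) * ∑ n ∈ Finset.range N, ‖tc (LL a g) n‖ ^ 2) ≤
      (1 - a ^ 2) * 1 := by
    have : (1 - a ^ 2) * ((1 - a ^ 2) * ∑ n ∈ Finset.range N, ‖tc (LL a g) n‖ ^ 2) =
      (1 - a ^ 2) ^ 2 * ∑ n ∈ Finset.range N, ‖tc (LL a g) n‖ ^ 2 := by ring
    rw [this]
    linarith
  exact le_of_mul_le_mul_left h7 hpos

lemma LL_zero {a : ℝ} {g : ℂ → ℂ} : tc (LL a g) 0 = g 0 := by
  rw [tc_zero, LL]; simp

/-- Regime where `g 0` is not close to one. -/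
lemma regime1 {g : ℂ → ℂ} (hg : DifferentiableOn ℂ g (ball 0 1))
    (hb : ∀ z : ℂ, ‖z‖ < 1 → ‖g z‖ ≤ 1) {γ : ℝ} (h0 : g 0 = γ) (hγ0 : 0 ≤ γ) (hγ1 : γ ≤ 43/50)
    {r : ℝ} (hr0 : 0 < r) (hr1 : r ≤ 25/47) (N : ℕ) :
    ∑ n ∈ Finset.range N, ‖tc (LL (11/25) g) n‖ * r ^ n ≤ 1 / (1 - 11/25 * r) := by
  have hmono : ∑ n ∈ Finset.range N, ‖tc (LL (11/25) g) n‖ * r ^ n ≤
      ∑ n ∈ Finset.range (N + 1), ‖tc (LL (11/25) g) n‖ * r ^ n := by
    refine Finset.sum_le_sum_of_subset_of_nonneg ?_ (fun i _ _ => by positivity)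
    exact Finset.range_mono (by omega)
  refine hmono.trans ?_
  have hsq := LL_sq_sum (a := 11/25) (by norm_num) (by norm_num) hg hb (N + 1)
  rw [Finset.sum_range_succ'] at hsq ⊢
  have hL0 : ‖tc (LL (11/25) g) 0‖ = γ := by
    rw [LL_zero, h0, Complex.norm_real, Real.norm_eq_abs, abs_of_nonneg hγ0]
  rw [hL0] at hsq ⊢
  have h1 : ∑ k ∈ Finset.range N, ‖tc (LL (11/25) g) (k + 1)‖ * r ^ (k + 1) =
      r * ∑ m ∈ Finset.range N, ‖tc (LL (11/25) g) (m + 1)‖ * r ^ m := by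
    rw [Finset.mul_sum]
    refine Finset.sum_congr rfl (fun m _ => ?_)
    ring
  rw [h1, pow_zero, mul_one]
  set Y := ∑ m ∈ Finset.range N, ‖tc (LL (11/25) g) (m + 1)‖ * r ^ m with hY
  set Z := ∑ m ∈ Finset.range N, ‖tc (LL (11/25) g) (m + 1)‖ ^ 2 with hZ
  have hZ0 : 0 ≤ Z := Finset.sum_nonneg (fun i _ => by positivity)
  have hcs : Y ^ 2 ≤ Z * ∑ m ∈ Finset.range N, (r ^ 2) ^ m := by
    refine Finset.sum_sq_le_sum_mul_sum_of_sq_le_mul _ (fun i _ => by positivity)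
      (fun i _ => by positivity) (fun i _ => le_of_eq ?_)
    ring
  have hr2 : r ^ 2 ≤ 625/2209 := by nlinarith
  have h2 : ∑ m ∈ Finset.range N, (r ^ 2) ^ m ≤ (1 - r ^ 2)⁻¹ :=
    sum_le_hasSum _ (fun n _ => by positivity)
      (hasSum_geometric_of_lt_one (by positivity) (by nlinarith))
  have h3 : (1 - r ^ 2)⁻¹ ≤ 2209/1584 := by
    rw [inv_le_comm₀ (by nlinarith) (by norm_num)]
    norm_num
    nlinarith
  have h4 : Z ≤ 625/504 - γ ^ 2 := by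
    norm_num at hsq
    linarith
  have h5 : Y ^ 2 ≤ (47/900 * (11 + 36 * (1 - γ))) ^ 2 := by
    calc Y ^ 2 ≤ Z * ∑ m ∈ Finset.range N, (r ^ 2) ^ m := hcs
      _ ≤ Z * (2209/1584) := by
          gcongr
          exact h2.trans h3
      _ ≤ (625/504 - γ ^ 2) * (2209/1584) := by gcongr
      _ ≤ (47/900 * (11 + 36 * (1 - γ))) ^ 2 := by nlinarith
  have h6 : Y ≤ 47/900 * (11 + 36 * (1 - γ)) := by
    refine (abs_le_of_sq_le_sq' h5 ?_).2
    nlinarith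
  rw [le_div_iff₀ (by linarith)]
  have h7 : (r * Y + γ) * (1 - 11/25 * r) ≤
      (r * (47/900 * (11 + 36 * (1 - γ))) + γ) * (1 - 11/25 * r) := by
    have : 0 ≤ 1 - 11/25 * r := by linarith
    gcongr
  refine h7.trans ?_
  have e1 : 0 ≤ 1 - r * (2209/900) * (1 - 11/25 * r) := by nlinarith
  have e2 : 0 ≤ 7/50 + 11/25 * (43/50) * r - r * (18847/22500) * (1 - 11/25 * r) := by nlinarith
  nlinarith [mul_nonneg (sub_nonneg.2 hγ1) e1, mul_nonneg hγ0 e2]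

end Pool.Agent.P187f6b
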