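import Mathlib
import Pool.Agent.Lib.P187f6b.Regime

/-!
# The Herglotz regime
-/

set_option autoImplicit false

open Complex Metric Filter Topology Set MeasureTheory
open scoped Real ComplexConjugate

namespace Pool.Agent.P187f6b

lemma re_P_nonneg {g w : ℂ} (hg : ‖g‖ ≤ 1) (hw : ‖w‖ ≤ 1) :
    0 ≤ ((1 - g) * (1 - w) / (1 - w * g)).re := by
  rw [Complex.div_re, ← add_div]
  refine div_nonneg ?_ (Complex.normSq_nonneg _)
  have hg2 : g.re * g.re + g.im * g.im ≤ 1 := by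
    rw [← Complex.normSq_apply, Complex.normSq_eq_norm_sq]
    exact pow_le_one₀ (norm_nonneg _) hg
  have hw2 : w.re * w.re + w.im * w.im ≤ 1 := by
    rw [← Complex.normSq_apply, Complex.normSq_eq_norm_sq]
    exact pow_le_one₀ (norm_nonneg _) hw
  have e : ((1 - g) * (1 - w)).re * (1 - w * g).re + ((1 - g) * (1 - w)).im * (1 - w * g).im =
      (((1 - g.re) ^ 2 + g.im ^ 2) * (1 - (w.re * w.re + w.im * w.im)) +
        ((1 - w.re) ^ 2 + w.im ^ 2) * (1 - (g.re * g.re + g.im * g.im))) / 2 := by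
    simp only [Complex.mul_re, Complex.mul_im, Complex.sub_re, Complex.sub_im, Complex.one_re,
      Complex.one_im]
    ring
  rw [e]
  have h1 : 0 ≤ 1 - (w.re * w.re + w.im * w.im) := by linarith
  have h2 : 0 ≤ 1 - (g.re * g.re + g.im * g.im) := by linarith
  positivity

lemma geom_partial {r : ℝ} (hr0 : 0 < r) (hr1 : r ≤ 25/47) (N : ℕ) :
    ∑ n ∈ Finset.range N, (11/25 : ℝ) ^ n * r ^ n ≤ 1 / (1 - 11/25 * r) := by
  simp_rw [← mul_pow]
  rw [one_div]
  exact sum_le_hasSum _ (fun n _ => by positivity)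
    (hasSum_geometric_of_lt_one (by positivity) (by linarith))

lemma norm_circ_neg (θ : ℝ) : ‖cexp (-((θ : ℂ) * I))‖ = 1 := by
  have : -((θ : ℂ) * I) = ((-θ : ℝ) : ℂ) * I := by push_cast; ring
  rw [this, Complex.norm_exp_ofReal_mul_I]

/-- The Herglotz bound on a circle of radius `s < 1`. -/
lemma herglotz_bound_s {P : ℂ → ℂ} (hP : DifferentiableOn ℂ P (ball 0 1))
    (hre : ∀ z : ℂ, ‖z‖ < 1 → 0 ≤ (P z).re) {δ : ℝ} (hP0 : P 0 = δ) (hδ1 : δ ≤ 7/50)
    {r : ℝ} (hr0 : 0 < r) (hr1 : r ≤ 25/47) {s : ℝ} (hs0 : 0 < s) (hs1 : s < 1) (N : ℕ) :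
    ∑ n ∈ Finset.range N,
      ‖(11/25 : ℂ) ^ n - S1 (11/25) (S1 (11/25) (fun k => tc P k * s ^ k)) n‖ * r ^ n ≤
      1 / (1 - 11/25 * r) := by
  have him : (P 0).im = 0 := by rw [hP0]; simp
  have hcP := continuous_circ hP hs0.le hs1
  set w : ℝ → ℝ := fun θ => (P (s * cexp (θ * I))).re with hw
  have hwc : Continuous w := Complex.continuous_re.comp hcP
  have hw0 : ∀ θ, 0 ≤ w θ := fun θ => hre _ (by rw [norm_circ hs0.le]; exact hs1)
  have hwi : ∫ θ in (0 : ℝ)..2 * π, w θ = 2 * π * δ := by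
    have h := herglotz_coeff hP him hs0 hs1 0
    simp only [hc, if_true, mul_one, pow_zero, tc_zero, hP0] at h
    rw [intervalIntegral.integral_ofReal] at h
    exact_mod_cast h
  set T := 1 / (1 - 11/25 * r) with hT
  have hXc : ∀ n, Continuous (fun θ : ℝ => XX (cexp (-(θ * I))) n) := by
    intro n
    unfold XX ee
    refine continuous_const.sub (continuous_const.mul ?_)
    exact S1_cont _ (fun m (θ : ℝ) => S1 (11/25) (fun k => hc k (cexp (-(θ * I)))) m)
      (fun m => S1_cont _ (fun k (θ : ℝ) => hc k (cexp (-(θ * I)))) hc_cont m) n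
  have hn : ∀ n, 2 * π * (7/50) *
      ‖(11/25 : ℂ) ^ n - S1 (11/25) (S1 (11/25) (fun k => tc P k * s ^ k)) n‖ ≤
      (∫ θ in (0 : ℝ)..2 * π, w θ * ‖XX (cexp (-(θ * I))) n‖) +
        2 * π * (7/50 - δ) * (11/25 : ℝ) ^ n := by
    intro n
    have h1 := ee_integral hP him (11/25) hs0 hs1 n
    have h2 : ∫ θ in (0 : ℝ)..2 * π, (w θ : ℂ) * XX (cexp (-(θ * I))) n =
        2 * π * δ * (11/25 : ℂ) ^ n -
          (7/50) * (2 * π * S1 (11/25) (S1 (11/25) (fun k => tc P k * s ^ k)) n) := by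
      rw [← h1]
      have e1 : ∀ θ : ℝ, (w θ : ℂ) * XX (cexp (-(θ * I))) n =
          (w θ : ℂ) * (11/25 : ℂ) ^ n -
            (7/50) * (((P (s * cexp (θ * I))).re : ℂ) * ee (11/25) (cexp (-(θ * I))) n) := by
        intro θ
        rw [XX, hw]
        ring
      simp_rw [e1]
      have i1 : IntervalIntegrable (fun θ => (w θ : ℂ) * (11/25 : ℂ) ^ n) volume 0 (2 * π) :=
        ((Complex.continuous_ofReal.comp hwc).mul continuous_const).intervalIntegrable _ _
      have hec : Continuous (fun θ : ℝ => ee (11/25) (cexp (-(θ * I))) n) :=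
        S1_cont _ (fun m (θ : ℝ) => S1 (11/25) (fun k => hc k (cexp (-(θ * I)))) m)
          (fun m => S1_cont _ (fun k (θ : ℝ) => hc k (cexp (-(θ * I)))) hc_cont m) n
      have i2 : IntervalIntegrable (fun θ : ℝ => (7/50 : ℂ) *
          (((P (s * cexp (θ * I))).re : ℂ) * ee (11/25) (cexp (-(θ * I))) n)) volume 0 (2 * π) :=
        (continuous_const.mul
          ((Complex.continuous_ofReal.comp hwc).mul hec)).intervalIntegrable _ _
      rw [intervalIntegral.integral_sub i1 i2, intervalIntegral.integral_mul_const,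
        intervalIntegral.integral_const_mul, intervalIntegral.integral_ofReal, hwi]
      push_cast
      ring
    have h3 : ((2 * π * (7/50) : ℝ) : ℂ) *
        ((11/25 : ℂ) ^ n - S1 (11/25) (S1 (11/25) (fun k => tc P k * s ^ k)) n) =
        (∫ θ in (0 : ℝ)..2 * π, (w θ : ℂ) * XX (cexp (-(θ * I))) n) +
          ((2 * π * (7/50 - δ) * (11/25 : ℝ) ^ n : ℝ) : ℂ) := by
      rw [h2]
      push_cast
      ring
    have h4 : ‖∫ θ in (0 : ℝ)..2 * π, (w θ : ℂ) * XX (cexp (-(θ * I))) n‖ ≤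
        ∫ θ in (0 : ℝ)..2 * π, w θ * ‖XX (cexp (-(θ * I))) n‖ := by
      refine (intervalIntegral.norm_integral_le_integral_norm (by positivity)).trans (le_of_eq ?_)
      congr 1
      funext θ
      rw [norm_mul, Complex.norm_real, Real.norm_eq_abs, abs_of_nonneg (hw0 θ)]
    calc 2 * π * (7/50) *
        ‖(11/25 : ℂ) ^ n - S1 (11/25) (S1 (11/25) (fun k => tc P k * s ^ k)) n‖
        = ‖((2 * π * (7/50) : ℝ) : ℂ) *
          ((11/25 : ℂ) ^ n - S1 (11/25) (S1 (11/25) (fun k => tc P k * s ^ k)) n)‖ := by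
          rw [norm_mul, Complex.norm_real, Real.norm_eq_abs, abs_of_nonneg (by positivity)]
      _ ≤ ‖∫ θ in (0 : ℝ)..2 * π, (w θ : ℂ) * XX (cexp (-(θ * I))) n‖ +
          ‖((2 * π * (7/50 - δ) * (11/25 : ℝ) ^ n : ℝ) : ℂ)‖ := by
          rw [h3]; exact norm_add_le _ _
      _ ≤ _ := by
          refine add_le_add h4 (le_of_eq ?_)
          rw [Complex.norm_real, Real.norm_eq_abs, abs_of_nonneg]
          have : 0 ≤ 7/50 - δ := by linarith
          positivity
  have hsum : 2 * π * (7/50) * ∑ n ∈ Finset.range N,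
      ‖(11/25 : ℂ) ^ n - S1 (11/25) (S1 (11/25) (fun k => tc P k * s ^ k)) n‖ * r ^ n ≤
      (∫ θ in (0 : ℝ)..2 * π, w θ * ∑ n ∈ Finset.range N, ‖XX (cexp (-(θ * I))) n‖ * r ^ n) +
        2 * π * (7/50 - δ) * ∑ n ∈ Finset.range N, (11/25 : ℝ) ^ n * r ^ n := by
    have e1 : ∀ θ : ℝ, w θ * ∑ n ∈ Finset.range N, ‖XX (cexp (-(θ * I))) n‖ * r ^ n =
        ∑ n ∈ Finset.range N, (w θ * ‖XX (cexp (-(θ * I))) n‖) * r ^ n := by
      intro θ
      rw [Finset.mul_sum]
      refine Finset.sum_congr rfl (fun n _ => by ring)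
    simp_rw [e1]
    have i3 : ∀ n ∈ Finset.range N, IntervalIntegrable
        (fun θ : ℝ => (w θ * ‖XX (cexp (-(θ * I))) n‖) * r ^ n) volume 0 (2 * π) := fun n _ =>
      ((hwc.mul (hXc n).norm).mul continuous_const).intervalIntegrable _ _
    rw [intervalIntegral.integral_finsetSum i3, Finset.mul_sum,
      Finset.mul_sum, ← Finset.sum_add_distrib]
    refine Finset.sum_le_sum (fun n _ => ?_)
    rw [intervalIntegral.integral_mul_const]
    have := mul_le_mul_of_nonneg_right (hn n) (pow_nonneg hr0.le n)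
    linarith
  have hint : (∫ θ in (0 : ℝ)..2 * π, w θ * ∑ n ∈ Finset.range N,
      ‖XX (cexp (-(θ * I))) n‖ * r ^ n) ≤ 2 * π * δ * T := by
    rw [← hwi, ← intervalIntegral.integral_mul_const]
    refine intervalIntegral.integral_mono_on (by positivity) ?_ ?_ ?_
    · refine Continuous.intervalIntegrable ?_ _ _
      refine hwc.mul (continuous_finsetSum _ (fun n _ => ((hXc n).norm.mul continuous_const)))
    · exact (hwc.mul continuous_const).intervalIntegrable _ _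
    · intro θ _
      exact mul_le_mul_of_nonneg_left (total_bound (norm_circ_neg θ) hr0 hr1 N) (hw0 θ)
  have hgeo := geom_partial hr0 hr1 N
  have h7 : 2 * π * (7/50) * ∑ n ∈ Finset.range N,
      ‖(11/25 : ℂ) ^ n - S1 (11/25) (S1 (11/25) (fun k => tc P k * s ^ k)) n‖ * r ^ n ≤
      2 * π * (7/50) * T := by
    have h8 : 2 * π * (7/50 - δ) * ∑ n ∈ Finset.range N, (11/25 : ℝ) ^ n * r ^ n ≤
        2 * π * (7/50 - δ) * T := by
      have : 0 ≤ 7/50 - δ := by linarith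
      gcongr
    nlinarith
  exact le_of_mul_le_mul_left h7 (by positivity)

lemma herglotz_bound {P : ℂ → ℂ} (hP : DifferentiableOn ℂ P (ball 0 1))
    (hre : ∀ z : ℂ, ‖z‖ < 1 → 0 ≤ (P z).re) {δ : ℝ} (hP0 : P 0 = δ) (hδ1 : δ ≤ 7/50)
    {r : ℝ} (hr0 : 0 < r) (hr1 : r ≤ 25/47) (N : ℕ) :
    ∑ n ∈ Finset.range N,
      ‖(11/25 : ℂ) ^ n - S1 (11/25) (S1 (11/25) (tc P)) n‖ * r ^ n ≤
      1 / (1 - 11/25 * r) := by
  have hcont : Continuous (fun s : ℝ => ∑ n ∈ Finset.range N,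
      ‖(11/25 : ℂ) ^ n - S1 (11/25) (S1 (11/25) (fun k => tc P k * (s : ℂ) ^ k)) n‖ * r ^ n) := by
    refine continuous_finsetSum _ (fun n _ => ?_)
    refine Continuous.mul (Continuous.norm (continuous_const.sub ?_)) continuous_const
    refine S1_cont _ (fun m (s : ℝ) => S1 (11/25) (fun k => tc P k * (s : ℂ) ^ k) m) (fun m => ?_) n
    refine S1_cont _ (fun k (s : ℝ) => tc P k * (s : ℂ) ^ k) (fun k => ?_) m
    exact continuous_const.mul (Complex.continuous_ofReal.pow k)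
  have hlim := (hcont.tendsto 1).mono_left (nhdsWithin_le_nhds (s := Iio (1 : ℝ)))
  simp only [Complex.ofReal_one, one_pow, mul_one] at hlim
  refine le_of_tendsto hlim ?_
  have : Ioo (0 : ℝ) 1 ∈ 𝓝[<] (1 : ℝ) := Ioo_mem_nhdsLT (by norm_num)
  filter_upwards [this] with s hs using herglotz_bound_s hP hre hP0 hδ1 hr0 hr1 hs.1 hs.2 N

/-- Regime where `g 0` is close to one. -/
lemma regime2 {g : ℂ → ℂ} (hg : DifferentiableOn ℂ g (ball 0 1))
    (hb : ∀ z : ℂ, ‖z‖ < 1 → ‖g z‖ ≤ 1) {γ : ℝ} (h0 : g 0 = γ) (hγ1 : 43/50 ≤ γ)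
    {r : ℝ} (hr0 : 0 < r) (hr1 : r ≤ 25/47) (N : ℕ) :
    ∑ n ∈ Finset.range N, ‖tc (LL (11/25) g) n‖ * r ^ n ≤ 1 / (1 - 11/25 * r) := by
  have hne1 : ∀ z ∈ ball (0 : ℂ) 1, 1 - (11/25 : ℂ) * z * g z ≠ 0 := by
    intro z hz
    have := den_ne (a := 11/25) (by norm_num) (by norm_num) (z := z) (by simpa using hz)
      (hb z (by simpa using hz))
    simpa using this
  have haz : ∀ z ∈ ball (0 : ℂ) 1, ‖(11/25 : ℂ) * z‖ < 1 := by
    intro z hz
    have hz' : ‖z‖ < 1 := by simpa using hz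
    rw [norm_mul]
    norm_num
    linarith
  have hne2 : ∀ z ∈ ball (0 : ℂ) 1, 1 - (11/25 : ℂ) * z ≠ 0 := fun z hz => one_sub_ne (haz z hz)
  have hd1 : DifferentiableOn ℂ (fun z => 1 - (11/25 : ℂ) * z * g z) (ball 0 1) :=
    (differentiableOn_const _).sub (((differentiableOn_const _).mul differentiableOn_id).mul hg)
  have hd2 : DifferentiableOn ℂ (fun z => 1 - (11/25 : ℂ) * z) (ball 0 1) :=
    (differentiableOn_const _).sub ((differentiableOn_const _).mul differentiableOn_id)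
  have hd3 : DifferentiableOn ℂ (fun z => 1 - g z) (ball 0 1) :=
    (differentiableOn_const _).sub hg
  set P : ℂ → ℂ := fun z => (1 - g z) * (1 - (11/25 : ℂ) * z) / (1 - (11/25 : ℂ) * z * g z) with hP
  set F1 : ℂ → ℂ := fun z => (1 - g z) / (1 - (11/25 : ℂ) * z * g z) with hF1
  set F2 : ℂ → ℂ := fun z => (1 - g z) / ((1 - (11/25 : ℂ) * z * g z) * (1 - (11/25 : ℂ) * z)) with hF2
  have hPd : DifferentiableOn ℂ P (ball 0 1) := (hd3.mul hd2).div hd1 hne1
  have hF1d : DifferentiableOn ℂ F1 (ball 0 1) := hd3.div hd1 hne1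
  have hF2d : DifferentiableOn ℂ F2 (ball 0 1) :=
    hd3.div (hd1.mul hd2) (fun z hz => mul_ne_zero (hne1 z hz) (hne2 z hz))
  have t1 : ∀ n, tc F1 n = S1 (11/25) (tc P) n := fun n => tc_div hF1d (fun z hz => by
    simp only [hF1, hP]; ring) n
  have t2 : ∀ n, tc F2 n = S1 (11/25) (tc F1) n := fun n => tc_div hF2d (fun z hz => by
    have hz' : z ∈ ball (0 : ℂ) 1 := by simpa using hz
    have a1 := hne1 z hz'
    have a2 := hne2 z hz'
    simp only [hF1, hF2]
    rw [div_mul_eq_mul_div, mul_div_mul_right _ _ a2]) n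
  have t3 : tc F2 = S1 (11/25) (S1 (11/25) (tc P)) := by
    have : tc F1 = S1 (11/25) (tc P) := funext t1
    funext n
    rw [t2, this]
  have hgd : DifferentiableOn ℂ (fun z => (1 - (11/25 : ℂ) * z)⁻¹) (ball 0 1) := hd2.inv hne2
  have t4 : ∀ n, tc (LL (11/25) g) n = (11/25 : ℂ) ^ n - S1 (11/25) (S1 (11/25) (tc P)) n := by
    intro n
    rw [← t3]
    refine tc_eq (c := fun n => (11/25 : ℂ) ^ n - tc F2 n) (fun z hz => ?_) n
    have hz' : z ∈ ball (0 : ℂ) 1 := by simpa using hz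
    have a1 := hne1 z hz'
    have a2 := hne2 z hz'
    have e1 : LL (11/25) g z = (1 - (11/25 : ℂ) * z)⁻¹ - F2 z := by
      have hcast : (((11/25 : ℝ)) : ℂ) = 11/25 := by push_cast; ring
      simp only [LL, hF2, hcast]
      obtain ⟨D1, hD1⟩ : ∃ D, D = 1 - (11/25 : ℂ) * z * g z := ⟨_, rfl⟩
      obtain ⟨D2, hD2⟩ : ∃ D, D = 1 - (11/25 : ℂ) * z := ⟨_, rfl⟩
      rw [← hD1] at a1 ⊢
      rw [← hD2] at a2 ⊢
      field_simp
      rw [hD1, hD2]
      ring
    rw [e1]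
    have h1 : HasSum (fun n => (11/25 : ℂ) ^ n * z ^ n) (1 - (11/25 : ℂ) * z)⁻¹ := by
      simp_rw [← mul_pow]
      exact hasSum_geometric_of_norm_lt_one (haz z hz')
    refine (h1.sub (tc_hasSum hF2d hz)).congr_fun (fun n => ?_)
    ring
  simp_rw [t4]
  refine herglotz_bound hPd (fun z hz => ?_) (δ := 1 - γ) ?_ (by linarith) hr0 hr1 N
  · have hz' : z ∈ ball (0 : ℂ) 1 := by simpa using hz
    exact re_P_nonneg (hb z hz) (haz z hz').le
  · simp only [hP, h0]
    simp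

end Pool.Agent.P187f6b
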