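import Mathlib
import Pool.Agent.Lib.P187f6b.Defs
import Pool.Agent.Lib.P187f6b.Herg

/-!
# Assembly
-/

set_option autoImplicit false

open Complex Metric Filter Topology Set MeasureTheory
open scoped Real ComplexConjugate

namespace Pool.Agent.P187f6b

lemma maj_eq (l : ℝ) (f : ℂ → ℂ) (r : ℝ) :
    maj l f r = l + ∑' n : ℕ, ‖tc f (n + 1)‖ * r ^ (n + 1) := rfl

/-- Both regimes together. -/
lemma base_bound {g : ℂ → ℂ} (hg : DifferentiableOn ℂ g (ball 0 1))
    (hb : ∀ z : ℂ, ‖z‖ < 1 → ‖g z‖ ≤ 1) {γ : ℝ} (h0 : g 0 = γ) (hγ0 : 0 ≤ γ)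
    {r : ℝ} (hr0 : 0 < r) (hr1 : r ≤ 25/47) (N : ℕ) :
    ∑ n ∈ Finset.range N, ‖tc (LL (11/25) g) n‖ * r ^ n ≤ 1 / (1 - 11/25 * r) := by
  rcases le_total γ (43/50) with h | h
  · exact regime1 hg hb h0 hγ0 h hr0 hr1 N
  · exact regime2 hg hb h0 h hr0 hr1 N

lemma tc_mul {f g : ℂ → ℂ} (hf : DifferentiableOn ℂ f (ball 0 1))
    (hg : DifferentiableOn ℂ g (ball 0 1)) (n : ℕ) :
    tc (fun z => f z * g z) n = ∑ kl ∈ Finset.HasAntidiagonal.antidiagonal n, tc f kl.1 * tc g kl.2 := by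
  refine tc_eq (c := fun n => ∑ kl ∈ Finset.HasAntidiagonal.antidiagonal n, tc f kl.1 * tc g kl.2)
    (fun z hz => ?_) n
  have h1 := tc_hasSum hf hz
  have h2 := tc_hasSum hg hz
  have s1 := h1.summable.norm
  have s2 := h2.summable.norm
  have h3 := tsum_mul_tsum_eq_tsum_sum_antidiagonal_of_summable_norm s1 s2
  have h4 := (summable_norm_sum_mul_antidiagonal_of_summable_norm s1 s2).of_norm.hasSum
  rw [← h3, h1.tsum_eq, h2.tsum_eq] at h4
  refine h4.congr_fun (fun n => ?_)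
  rw [Finset.sum_mul]
  refine Finset.sum_congr rfl (fun kl hkl => ?_)
  rw [← Finset.HasAntidiagonal.mem_antidiagonal.1 hkl, pow_add]
  ring

/-- Monotonicity in the first parameter: the bound at `a` gives the bound at `l ≥ a`. -/
lemma lift_bound {g : ℂ → ℂ} (hg : DifferentiableOn ℂ g (ball 0 1))
    (hb : ∀ z : ℂ, ‖z‖ < 1 → ‖g z‖ ≤ 1) {a l : ℝ} (ha0 : 0 ≤ a) (hal : a ≤ l) (hl1 : l < 1)
    {r : ℝ} (hr0 : 0 < r) (hr1 : r < 1)
    (hX : ∀ N, ∑ n ∈ Finset.range N, ‖tc (LL a g) n‖ * r ^ n ≤ 1 / (1 - a * r)) :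
    ∑' n, ‖tc (LL l g) n‖ * r ^ n ≤ 1 / (1 - l * r) := by
  have ha1 : a < 1 := lt_of_le_of_lt hal hl1
  have hl0 : 0 ≤ l := ha0.trans hal
  have hda := LL_diff ha0 ha1 hg hb
  have hdl := LL_diff hl0 hl1 hg hb
  set x := tc (LL a g) with hx
  set y := tc (LL l g) with hy
  have hprod : DifferentiableOn ℂ (fun z => LL a g z * LL l g z) (ball 0 1) := hda.mul hdl
  have hrel : ∀ z : ℂ, ‖z‖ < 1 → LL l g z =
      LL a g z + ((l - a : ℝ) : ℂ) * z * (LL a g z * LL l g z) := by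
    intro z hz
    have h1 := den_ne ha0 ha1 hz (hb z hz)
    have h2 := den_ne hl0 hl1 hz (hb z hz)
    simp only [LL]
    obtain ⟨D1, hD1⟩ : ∃ D, D = 1 - (a : ℂ) * z * g z := ⟨_, rfl⟩
    obtain ⟨D2, hD2⟩ : ∃ D, D = 1 - (l : ℂ) * z * g z := ⟨_, rfl⟩
    rw [← hD1] at h1 ⊢
    rw [← hD2] at h2 ⊢
    field_simp
    rw [hD1, hD2]
    push_cast
    ring
  have hsh : DifferentiableOn ℂ (fun z => ((l - a : ℝ) : ℂ) * z * (LL a g z * LL l g z))
      (ball 0 1) := ((differentiableOn_const _).mul differentiableOn_id).mul hprod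
  have hadd : DifferentiableOn ℂ (fun z => LL a g z +
      ((l - a : ℝ) : ℂ) * z * (LL a g z * LL l g z)) (ball 0 1) := hda.add hsh
  have hy0 : y 0 = x 0 := by rw [hx, hy, LL_zero, LL_zero]
  have hys : ∀ n, y (n + 1) = x (n + 1) +
      ((l - a : ℝ) : ℂ) * ∑ kl ∈ Finset.HasAntidiagonal.antidiagonal n, x kl.1 * y kl.2 := by
    intro n
    rw [hy, tc_congr hadd hrel (n + 1), tc_add hda hsh]
    have e := tc_shift (f := fun z => ((l - a : ℝ) : ℂ) * z * (LL a g z * LL l g z)) (c := 0)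
      (k := ((l - a : ℝ) : ℂ)) hprod (fun z _ => by ring) n
    rw [e, tc_mul hda hdl]
  have sx : Summable (fun n => ‖x n‖ * r ^ n) := tc_summable hda hr0.le hr1
  have sy : Summable (fun n => ‖y n‖ * r ^ n) := tc_summable hdl hr0.le hr1
  set X := ∑' n, ‖x n‖ * r ^ n with hXd
  set Y := ∑' n, ‖y n‖ * r ^ n with hYd
  have hXle : X ≤ 1 / (1 - a * r) := by
    refine Real.tsum_le_of_sum_range_le (fun n => by positivity) hX
  have hX0 : 0 ≤ X := tsum_nonneg (fun n => by positivity)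
  have hY0 : 0 ≤ Y := tsum_nonneg (fun n => by positivity)
  have sx' : Summable (fun n => ‖(‖x n‖ * r ^ n : ℝ)‖) := by
    refine sx.congr (fun n => ?_)
    rw [Real.norm_eq_abs, abs_of_nonneg (by positivity)]
  have sy' : Summable (fun n => ‖(‖y n‖ * r ^ n : ℝ)‖) := by
    refine sy.congr (fun n => ?_)
    rw [Real.norm_eq_abs, abs_of_nonneg (by positivity)]
  have hXY := tsum_mul_tsum_eq_tsum_sum_antidiagonal_of_summable_norm sx' sy'
  have sXY := (summable_norm_sum_mul_antidiagonal_of_summable_norm sx' sy').of_norm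
  have hla : 0 ≤ l - a := by linarith
  have hterm : ∀ n, ‖y (n + 1)‖ * r ^ (n + 1) ≤ ‖x (n + 1)‖ * r ^ (n + 1) +
      (l - a) * r * ∑ kl ∈ Finset.HasAntidiagonal.antidiagonal n, (‖x kl.1‖ * r ^ kl.1) * (‖y kl.2‖ * r ^ kl.2) := by
    intro n
    have h1 : ‖y (n + 1)‖ ≤ ‖x (n + 1)‖ +
        (l - a) * ∑ kl ∈ Finset.HasAntidiagonal.antidiagonal n, ‖x kl.1‖ * ‖y kl.2‖ := by
      rw [hys]
      refine (norm_add_le _ _).trans ?_
      gcongr
      rw [norm_mul, Complex.norm_real, Real.norm_eq_abs, abs_of_nonneg hla]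
      gcongr
      refine (norm_sum_le _ _).trans ?_
      exact Finset.sum_le_sum (fun kl _ => (norm_mul _ _).le)
    have h2 : ∑ kl ∈ Finset.HasAntidiagonal.antidiagonal n, (‖x kl.1‖ * r ^ kl.1) * (‖y kl.2‖ * r ^ kl.2) =
        (∑ kl ∈ Finset.HasAntidiagonal.antidiagonal n, ‖x kl.1‖ * ‖y kl.2‖) * r ^ n := by
      rw [Finset.sum_mul]
      refine Finset.sum_congr rfl (fun kl hkl => ?_)
      rw [← Finset.HasAntidiagonal.mem_antidiagonal.1 hkl, pow_add]
      ring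
    rw [h2]
    calc ‖y (n + 1)‖ * r ^ (n + 1) ≤ (‖x (n + 1)‖ +
        (l - a) * ∑ kl ∈ Finset.HasAntidiagonal.antidiagonal n, ‖x kl.1‖ * ‖y kl.2‖) * r ^ (n + 1) := by gcongr
      _ = _ := by ring
  have hsum1 : Y = ‖y 0‖ + ∑' n, ‖y (n + 1)‖ * r ^ (n + 1) := by
    rw [hYd, sy.tsum_eq_zero_add]; simp
  have hsum2 : X = ‖x 0‖ + ∑' n, ‖x (n + 1)‖ * r ^ (n + 1) := by
    rw [hXd, sx.tsum_eq_zero_add]; simp
  have hle : ∑' n, ‖y (n + 1)‖ * r ^ (n + 1) ≤
      (∑' n, ‖x (n + 1)‖ * r ^ (n + 1)) + (l - a) * r * (X * Y) := by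
    rw [hXY, ← tsum_mul_left]
    have sA : Summable (fun n => ‖x (n + 1)‖ * r ^ (n + 1)) := (summable_nat_add_iff 1).2 sx
    have sB : Summable (fun n => (l - a) * r * ∑ kl ∈ Finset.HasAntidiagonal.antidiagonal n,
        (‖x kl.1‖ * r ^ kl.1) * (‖y kl.2‖ * r ^ kl.2)) := sXY.mul_left _
    rw [← sA.tsum_add sB]
    exact Summable.tsum_le_tsum hterm ((summable_nat_add_iff 1).2 sy) (sA.add sB)
  have hmain : Y ≤ X * (1 + (l - a) * r * Y) := by
    rw [hy0] at hsum1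
    have : X * (1 + (l - a) * r * Y) = X + (l - a) * r * (X * Y) := by ring
    rw [this]
    linarith
  have har : 0 < 1 - a * r := by nlinarith
  have hlr : 0 < 1 - l * r := by nlinarith
  have h5 : Y ≤ 1 / (1 - a * r) * (1 + (l - a) * r * Y) := by
    refine hmain.trans ?_
    have : 0 ≤ 1 + (l - a) * r * Y := by positivity
    gcongr
  rw [le_div_iff₀ hlr]
  have h6 : Y * (1 - a * r) ≤ 1 + (l - a) * r * Y := by
    have h7 := mul_le_mul_of_nonneg_right h5 har.le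
    have h8 : 1 / (1 - a * r) * (1 + (l - a) * r * Y) * (1 - a * r) = 1 + (l - a) * r * Y := by
      field_simp
    rwa [h8] at h7
  nlinarith

/-- Taylor coefficients of a rotated function. -/
lemma tc_rot {f : ℂ → ℂ} (hf : DifferentiableOn ℂ f (ball 0 1)) {w : ℂ} (hw : ‖w‖ = 1) (n : ℕ) :
    tc (fun z => f (w * z)) n = w ^ n * tc f n :=
  tc_eq (c := fun n => w ^ n * tc f n) (fun z hz => by
    have : ‖w * z‖ < 1 := by rw [norm_mul, hw, one_mul]; exact hz
    refine (tc_hasSum hf this).congr_fun (fun n => ?_)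
    rw [mul_pow]; ring) n

/-- Structure of the class: the coefficients of a member are, up to rotation, those of a
reduced function. -/
lemma class_structure {l : ℝ} (hl0 : 0 ≤ l) (hl1 : l < 1) {f : ℂ → ℂ} (hf : f ∈ FClass l) :
    ∃ (g : ℂ → ℂ) (γ : ℝ), DifferentiableOn ℂ g (ball 0 1) ∧ (∀ z : ℂ, ‖z‖ < 1 → ‖g z‖ ≤ 1) ∧
      g 0 = γ ∧ 0 ≤ γ ∧ ∀ n, ‖tc f (n + 1)‖ = (1 - l ^ 2) * ‖tc (LL l g) n‖ := by
  obtain ⟨hfd, hfb, hf0⟩ := hf
  have hne : ∀ z ∈ ball (0 : ℂ) 1, 1 - (l : ℂ) * f z ≠ 0 := by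
    intro z hz
    refine one_sub_ne ?_
    rw [norm_mul, Complex.norm_real, Real.norm_eq_abs, abs_of_nonneg hl0]
    nlinarith [hfb z hz, norm_nonneg (f z)]
  set w : ℂ → ℂ := fun z => (l - f z) / (1 - l * f z) with hw
  have hwd : DifferentiableOn ℂ w (ball 0 1) :=
    ((differentiableOn_const _).sub hfd).div
      ((differentiableOn_const _).sub ((differentiableOn_const _).mul hfd)) hne
  have hw0 : w 0 = 0 := by simp [hw, hf0]
  have hwb : MapsTo w (ball 0 1) (closedBall (w 0) 1) := by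
    intro z hz
    rw [hw0, mem_closedBall_zero_iff]
    exact mobius_norm_le hl0 hl1 (hfb z hz).le
  set g0 : ℂ → ℂ := dslope w 0 with hg0
  have hg0d : DifferentiableOn ℂ g0 (ball 0 1) :=
    (Complex.differentiableOn_dslope (ball_mem_nhds 0 one_pos)).2 hwd
  have hg0b : ∀ z : ℂ, ‖z‖ < 1 → ‖g0 z‖ ≤ 1 := by
    intro z hz
    have := Complex.norm_dslope_le_div_of_mapsTo_ball hwd hwb (z := z) (by simpa using hz)
    simpa using this
  have hwz : ∀ z, w z = z * g0 z := by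
    intro z
    have := sub_smul_dslope w 0 z
    rw [hw0] at this
    simp only [sub_zero, smul_eq_mul] at this
    rw [hg0, this]
  obtain ⟨o, ho, hog⟩ : ∃ o : ℂ, ‖o‖ = 1 ∧ o * g0 0 = (‖g0 0‖ : ℂ) := by
    by_cases h : g0 0 = 0
    · exact ⟨1, by simp, by simp [h]⟩
    · refine ⟨conj (g0 0) / ‖g0 0‖, ?_, ?_⟩
      · rw [norm_div, RCLike.norm_conj, Complex.norm_real, norm_norm]
        exact div_self (norm_ne_zero_iff.2 h)
      · have h2 : (‖g0 0‖ : ℂ) ≠ 0 := by exact_mod_cast (norm_ne_zero_iff.2 h)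
        rw [div_mul_eq_mul_div, mul_comm, Complex.mul_conj, Complex.normSq_eq_norm_sq]
        push_cast
        field_simp
  have hmaps : ∀ z ∈ ball (0 : ℂ) 1, o * z ∈ ball (0 : ℂ) 1 := by
    intro z hz
    rw [mem_ball_zero_iff] at hz ⊢
    rw [norm_mul, ho, one_mul]; exact hz
  refine ⟨fun z => o * g0 (o * z), ‖g0 0‖, ?_, ?_, ?_, norm_nonneg _, ?_⟩
  · refine (differentiableOn_const _).mul (hg0d.comp ?_ hmaps)
    exact (differentiableOn_const _).mul differentiableOn_id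
  · intro z hz
    rw [norm_mul, ho, one_mul]
    exact hg0b _ (by rw [norm_mul, ho, one_mul]; exact hz)
  · simpa using hog
  · intro n
    have hrot := tc_rot hfd ho (n + 1)
    have hgd : DifferentiableOn ℂ (fun z => o * g0 (o * z)) (ball 0 1) := by
      refine (differentiableOn_const _).mul (hg0d.comp ?_ hmaps)
      exact (differentiableOn_const _).mul differentiableOn_id
    have hgb : ∀ z : ℂ, ‖z‖ < 1 → ‖o * g0 (o * z)‖ ≤ 1 := by
      intro z hz
      rw [norm_mul, ho, one_mul]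
      exact hg0b _ (by rw [norm_mul, ho, one_mul]; exact hz)
    have hLd := LL_diff hl0 hl1 hgd hgb
    have hfz : ∀ z : ℂ, ‖z‖ < 1 → f (o * z) =
        (l : ℂ) + (-(1 - (l : ℂ) ^ 2)) * z * LL l (fun z => o * g0 (o * z)) z := by
      intro z hz
      have hz' : z ∈ ball (0 : ℂ) 1 := by simpa using hz
      have h1 := hne (o * z) (hmaps z hz')
      have h2 := den_ne hl0 hl1 hz (hgb z hz)
      have h3 := hwz (o * z)
      simp only [hw] at h3
      rw [div_eq_iff h1] at h3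
      simp only [LL]
      rw [← sub_eq_zero]
      have h4 : (f (o * z) - (l : ℂ)) * (1 - (l : ℂ) * z * (o * g0 (o * z))) =
          (-(1 - (l : ℂ) ^ 2)) * z * (o * g0 (o * z)) := by
        linear_combination -h3
      have h5 : (-(1 - (l : ℂ) ^ 2)) * z * ((o * g0 (o * z)) / (1 - (l : ℂ) * z * (o * g0 (o * z)))) =
          f (o * z) - (l : ℂ) := by
        rw [← mul_div_assoc, div_eq_iff h2, h4]
      rw [h5]
      ring
    have h6 := tc_shift (f := fun z => f (o * z)) hLd hfz n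
    rw [h6] at hrot
    have h7 : ‖tc f (n + 1)‖ = ‖o ^ (n + 1) * tc f (n + 1)‖ := by
      rw [norm_mul, norm_pow, ho, one_pow, one_mul]
    rw [h7, ← hrot, norm_mul]
    congr 1
    have : (-(1 - (l : ℂ) ^ 2)) = ((-(1 - l ^ 2) : ℝ) : ℂ) := by push_cast; ring
    rw [this, Complex.norm_real, Real.norm_eq_abs, abs_neg, abs_of_nonneg]
    nlinarith

end Pool.Agent.P187f6b
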