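import Mathlib
import Pool.Agent.Lib.P187f6b.Defs
import Pool.Agent.Lib.P187f6b.Main

/-!
# The set of parameters with the Moebius value is an up-set
-/

set_option autoImplicit false

open Complex Metric Set Filter Topology

namespace Pool.Agent.P187f6b

/-- Holomorphic functions on the disc bounded by one with a nonnegative value at the origin. -/
def Sch (g : ℂ → ℂ) : Prop :=
  DifferentiableOn ℂ g (ball 0 1) ∧ (∀ z : ℂ, ‖z‖ < 1 → ‖g z‖ ≤ 1) ∧ ∃ γ : ℝ, 0 ≤ γ ∧ g 0 = γ

/-- The property `P(l, r)`. -/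
def PP (l r : ℝ) : Prop :=
  ∀ g : ℂ → ℂ, Sch g → ∀ N, ∑ n ∈ Finset.range N, ‖tc (LL l g) n‖ * r ^ n ≤ 1 / (1 - l * r)

lemma PP_mono {a l r : ℝ} (ha0 : 0 ≤ a) (hal : a ≤ l) (hl1 : l < 1) (hr0 : 0 < r) (hr1 : r < 1)
    (h : PP a r) : PP l r := by
  intro g hg N
  have h1 := lift_bound hg.1 hg.2.1 ha0 hal hl1 hr0 hr1 (h g hg)
  have hd := LL_diff (ha0.trans hal) hl1 hg.1 hg.2.1
  have hs : Summable (fun n => ‖tc (LL l g) n‖ * r ^ n) := tc_summable hd hr0.le hr1
  exact (hs.sum_le_tsum (Finset.range N) (fun n _ => by positivity)).trans h1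

lemma tc_scale {f : ℂ → ℂ} (hf : DifferentiableOn ℂ f (ball 0 1)) {t : ℝ} (ht0 : 0 ≤ t)
    (ht1 : t ≤ 1) (n : ℕ) : tc (fun z => f (t * z)) n = t ^ n * tc f n :=
  tc_eq (c := fun n => (t : ℂ) ^ n * tc f n) (fun z hz => by
    have : ‖(t : ℂ) * z‖ < 1 := by
      rw [norm_mul, Complex.norm_real, Real.norm_eq_abs, abs_of_nonneg ht0]
      nlinarith [norm_nonneg z]
    refine (tc_hasSum hf this).congr_fun (fun n => ?_)
    rw [mul_pow]; ring) n

/-- Scaling: `P(l t, r)` gives `P(l, t r)`. -/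
lemma PP_scale {l r t : ℝ} (hl0 : 0 ≤ l) (hl1 : l < 1) (ht0 : 0 ≤ t)
    (ht1 : t ≤ 1) (h : PP (l * t) r) : PP l (t * r) := by
  intro g hg N
  have hgt : Sch (fun z => g (t * z)) := by
    have hm : ∀ z : ℂ, ‖z‖ < 1 → ‖(t : ℂ) * z‖ < 1 := by
      intro z hz
      rw [norm_mul, Complex.norm_real, Real.norm_eq_abs, abs_of_nonneg ht0]
      nlinarith [norm_nonneg z]
    refine ⟨hg.1.comp ((differentiableOn_const _).mul differentiableOn_id) ?_, fun z hz => ?_, ?_⟩
    · intro z hz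
      have hz' : ‖z‖ < 1 := by simpa using hz
      rw [mem_ball_zero_iff]
      exact hm z hz'
    · exact hg.2.1 _ (hm z hz)
    · obtain ⟨γ, hγ, h0⟩ := hg.2.2
      exact ⟨γ, hγ, by simpa using h0⟩
  have h1 := h _ hgt N
  have hd := LL_diff hl0 hl1 hg.1 hg.2.1
  have e1 : ∀ n, tc (LL (l * t) (fun z => g (t * z))) n = t ^ n * tc (LL l g) n := by
    intro n
    rw [← tc_scale hd ht0 ht1 n]
    have e : LL (l * t) (fun z => g (t * z)) = fun z => LL l g (t * z) := by
      funext z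
      simp only [LL]
      push_cast
      congr 2
      ring
    rw [e]
  simp_rw [e1] at h1
  have e2 : ∀ n, ‖(t : ℂ) ^ n * tc (LL l g) n‖ * r ^ n = ‖tc (LL l g) n‖ * (t * r) ^ n := by
    intro n
    rw [norm_mul, norm_pow, Complex.norm_real, Real.norm_eq_abs, abs_of_nonneg ht0, mul_pow]
    ring
  simp_rw [e2] at h1
  have e3 : l * t * r = l * (t * r) := by ring
  rwa [e3] at h1

/-- The property on the critical curve. -/
def EE (l : ℝ) : Prop := PP l (1 / (1 + 2 * l))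

lemma EE_mono {l l' : ℝ} (hl0 : 0 ≤ l) (hll : l ≤ l') (hl1 : l' < 1) (hl : 0 < l)
    (h : EE l) : EE l' := by
  set r := 1 / (1 + 2 * l) with hr
  set t := (1 + 2 * l) / (1 + 2 * l') with ht
  have hr0 : 0 < r := by rw [hr]; positivity
  have hr1 : r < 1 := by rw [hr, div_lt_one (by positivity)]; linarith
  have ht0 : 0 ≤ t := by rw [ht]; apply div_nonneg <;> linarith
  have ht1 : t ≤ 1 := by rw [ht, div_le_one (by linarith)]; linarith
  have htr : t * r = 1 / (1 + 2 * l') := by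
    rw [ht, hr]
    have h1 : (1 + 2 * l) ≠ 0 := by positivity
    field_simp
  have hlt : l ≤ l' * t := by
    rw [ht, ← mul_div_assoc, le_div_iff₀ (by linarith)]
    nlinarith
  have hlt1 : l' * t < 1 := by nlinarith
  have h2 : PP (l' * t) r := PP_mono hl0 hlt hlt1 hr0 hr1 h
  have h3 := PP_scale (hl0.trans hll) hl1 ht0 ht1 h2
  rw [htr] at h3
  exact h3

/-- Recursion for the coefficients of the reduced function. -/
lemma tc_LL_succ {g : ℂ → ℂ} (hg : Sch g) {l : ℝ} (hl0 : 0 ≤ l) (hl1 : l < 1) (n : ℕ) :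
    tc (LL l g) (n + 1) = tc g (n + 1) +
      (l : ℂ) * ∑ kl ∈ Finset.HasAntidiagonal.antidiagonal n, tc g kl.1 * tc (LL l g) kl.2 := by
  have hdl := LL_diff hl0 hl1 hg.1 hg.2.1
  have hprod : DifferentiableOn ℂ (fun z => g z * LL l g z) (ball 0 1) := hg.1.mul hdl
  have hrel : ∀ z : ℂ, ‖z‖ < 1 → LL l g z = g z + (l : ℂ) * z * (g z * LL l g z) := by
    intro z hz
    have h2 := den_ne hl0 hl1 hz (hg.2.1 z hz)
    simp only [LL]
    obtain ⟨D, hD⟩ : ∃ D : ℂ, D = 1 - (l : ℂ) * z * g z := ⟨_, rfl⟩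
    rw [← hD] at h2 ⊢
    field_simp
    rw [hD]
    ring
  have hsh : DifferentiableOn ℂ (fun z => (l : ℂ) * z * (g z * LL l g z)) (ball 0 1) :=
    ((differentiableOn_const _).mul differentiableOn_id).mul hprod
  have hadd : DifferentiableOn ℂ (fun z => g z + (l : ℂ) * z * (g z * LL l g z)) (ball 0 1) :=
    hg.1.add hsh
  rw [tc_congr hadd hrel (n + 1), tc_add hg.1 hsh]
  have e := tc_shift (f := fun z => (l : ℂ) * z * (g z * LL l g z)) (c := 0)
    (k := (l : ℂ)) hprod (fun z _ => by ring) n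
  rw [e, tc_mul hg.1 hdl]

/-- The coefficients depend continuously on the parameter. -/
lemma tc_LL_cont {g : ℂ → ℂ} (hg : Sch g) (n : ℕ) :
    ContinuousOn (fun l : ℝ => tc (LL l g) n) (Ico 0 1) := by
  induction n using Nat.strong_induction_on with
  | _ n ih =>
    rcases n with _ | n
    · simp only [LL_zero]
      exact continuousOn_const
    · have h : ContinuousOn (fun l : ℝ => tc g (n + 1) +
          (l : ℂ) * ∑ kl ∈ Finset.HasAntidiagonal.antidiagonal n, tc g kl.1 * tc (LL l g) kl.2)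
          (Ico 0 1) := by
        refine continuousOn_const.add (Complex.continuous_ofReal.continuousOn.mul ?_)
        refine continuousOn_finsetSum _ (fun kl hkl => continuousOn_const.mul (ih kl.2 ?_))
        have := Finset.HasAntidiagonal.mem_antidiagonal.1 hkl
        omega
      refine h.congr (fun l hl => ?_)
      exact tc_LL_succ hg hl.1 hl.2 n

/-- The property passes to the infimum. -/
lemma EE_closed {c : ℝ} (hc0 : 0 ≤ c) (hc1 : c < 1) (h : ∀ l, c < l → l < 1 → EE l) : EE c := by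
  intro g hg N
  have hcont : ContinuousOn (fun l : ℝ => ∑ n ∈ Finset.range N,
      ‖tc (LL l g) n‖ * (1 / (1 + 2 * l)) ^ n) (Ico 0 1) := by
    refine continuousOn_finsetSum _ (fun n _ => ContinuousOn.mul (tc_LL_cont hg n).norm ?_)
    refine ContinuousOn.pow (ContinuousOn.div continuousOn_const (by fun_prop) ?_) n
    intro l hl
    have := hl.1
    positivity
  have hcont2 : ContinuousOn (fun l : ℝ => 1 / (1 - l * (1 / (1 + 2 * l)))) (Ico 0 1) := by
    refine ContinuousOn.div continuousOn_const ?_ ?_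
    · refine continuousOn_const.sub (continuousOn_id.mul ?_)
      refine ContinuousOn.div continuousOn_const (by fun_prop) ?_
      intro l hl
      have := hl.1
      positivity
    · intro l hl
      have h0 := hl.1
      have h1 : l * (1 / (1 + 2 * l)) < 1 := by
        rw [mul_one_div, div_lt_one (by linarith)]; linarith
      linarith
  have hcm : c ∈ Ico (0 : ℝ) 1 := ⟨hc0, hc1⟩
  have hsub : Ioo c 1 ⊆ Ico (0 : ℝ) 1 := fun x hx => ⟨hc0.trans hx.1.le, hx.2⟩
  have l1 := (hcont c hcm).mono hsub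
  have l2 := (hcont2 c hcm).mono hsub
  have : (𝓝[Ioo c 1] c).NeBot := by
    apply mem_closure_iff_nhdsWithin_neBot.1
    rw [closure_Ioo hc1.ne]
    exact ⟨le_refl _, hc1.le⟩
  refine le_of_tendsto_of_tendsto l1 l2 ?_
  filter_upwards [self_mem_nhdsWithin] with l hl
  exact h l hl.1 hl.2 g hg N

/-- The base case of the property. -/
lemma EE_base : EE (11/25) := by
  intro g hg N
  obtain ⟨γ, hγ, h0⟩ := hg.2.2
  exact base_bound hg.1 hg.2.1 h0 hγ (by norm_num) (by norm_num) N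

/-- The property gives the value of the best constant. -/
lemma maj_le_of_EE {l : ℝ} (h1 : 0 < l) (h2 : l < 1) (h : EE l) {f : ℂ → ℂ} (hf : f ∈ FClass l) :
    maj l f (1 / (1 + 2 * l)) ≤ 1 := by
  obtain ⟨g, γ, hg, hb, h0, hγ, hn⟩ := class_structure h1.le h2 hf
  have h3 := h g ⟨hg, hb, γ, hγ, h0⟩
  set r := 1 / (1 + 2 * l) with hr
  have hr0 : 0 < r := by rw [hr]; positivity
  have hrl : r * (1 + 2 * l) = 1 := by rw [hr]; field_simp
  have h4 : ∑' n, ‖tc (LL l g) n‖ * r ^ n ≤ 1 / (1 - l * r) :=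
    Real.tsum_le_of_sum_range_le (fun n => by positivity) h3
  rw [maj_eq]
  have e1 : ∀ n, ‖tc f (n + 1)‖ * r ^ (n + 1) =
      ((1 - l ^ 2) * r) * (‖tc (LL l g) n‖ * r ^ n) := by
    intro n
    rw [hn n]; ring
  simp_rw [e1]
  rw [tsum_mul_left]
  have hpos : 0 ≤ (1 - l ^ 2) * r := by
    have : 0 ≤ 1 - l ^ 2 := by nlinarith
    positivity
  have h5 := mul_le_mul_of_nonneg_left h4 hpos
  have hlr : 0 < 1 - l * r := by nlinarith
  have h6 : (1 - l ^ 2) * r * (1 / (1 - l * r)) = 1 - l := by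
    rw [mul_one_div, div_eq_iff hlr.ne']
    linear_combination (1 - l) * hrl
  linarith

/-- The member of the class attached to `g`. -/
lemma class_of_Sch {l : ℝ} (h1 : 0 ≤ l) (h2 : l < 1) {g : ℂ → ℂ} (hg : Sch g) :
    (fun z : ℂ => (l : ℂ) + (-(1 - (l : ℂ) ^ 2)) * z * LL l g z) ∈ FClass l := by
  have hL := LL_diff h1 h2 hg.1 hg.2.1
  refine ⟨(differentiableOn_const _).add
    (((differentiableOn_const _).mul differentiableOn_id).mul hL), fun z hz => ?_, by simp⟩
  have hz' : ‖z‖ < 1 := by simpa using hz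
  have h3 := den_ne h1 h2 hz' (hg.2.1 z hz')
  have e : (l : ℂ) + (-(1 - (l : ℂ) ^ 2)) * z * LL l g z =
      (l - z * g z) / (1 - l * z * g z) := by
    simp only [LL]
    obtain ⟨D, hD⟩ : ∃ D : ℂ, D = 1 - (l : ℂ) * z * g z := ⟨_, rfl⟩
    rw [← hD] at h3 ⊢
    field_simp
    rw [hD]
    ring
  show ‖(l : ℂ) + (-(1 - (l : ℂ) ^ 2)) * z * LL l g z‖ < 1
  rw [e, norm_div, div_lt_one (norm_pos_iff.2 h3)]
  refine (abs_lt_of_sq_lt_sq' ?_ (norm_nonneg _)).2
  rw [mul_assoc (l : ℂ) z (g z)]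
  have hzg : ‖z * g z‖ < 1 := by
    rw [norm_mul]
    have := hg.2.1 z hz'
    nlinarith [norm_nonneg z, norm_nonneg (g z)]
  rw [← Complex.normSq_eq_norm_sq, ← Complex.normSq_eq_norm_sq, Complex.normSq_apply,
    Complex.normSq_apply]
  have h4 : (z * g z).re * (z * g z).re + (z * g z).im * (z * g z).im < 1 := by
    rw [← Complex.normSq_apply, Complex.normSq_eq_norm_sq]
    exact pow_lt_one₀ (norm_nonneg _) hzg (by norm_num)
  rw [Complex.sub_re, Complex.sub_im, Complex.sub_re, Complex.sub_im, Complex.ofReal_re,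
    Complex.ofReal_im, Complex.re_ofReal_mul, Complex.im_ofReal_mul, Complex.one_re,
    Complex.one_im]
  nlinarith [mul_pos (sub_pos.2 h4) (show 0 < 1 - l * l by nlinarith)]

/-- The majorant sum of the member attached to `g`. -/
lemma maj_class_of_Sch {l : ℝ} (h1 : 0 ≤ l) (h2 : l < 1) {g : ℂ → ℂ} (hg : Sch g) {r : ℝ}
    (_hr0 : 0 ≤ r) :
    maj l (fun z : ℂ => (l : ℂ) + (-(1 - (l : ℂ) ^ 2)) * z * LL l g z) r =
      l + (1 - l ^ 2) * r * ∑' n, ‖tc (LL l g) n‖ * r ^ n := by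
  have hL := LL_diff h1 h2 hg.1 hg.2.1
  rw [maj_eq, ← tsum_mul_left]
  congr 1
  refine tsum_congr (fun n => ?_)
  have e2 : tc (fun z : ℂ => (l : ℂ) + (-(1 - (l : ℂ) ^ 2)) * z * LL l g z) (n + 1) =
      (-(1 - (l : ℂ) ^ 2)) * tc (LL l g) n := tc_shift hL (fun z _ => rfl) n
  have e3 : (-(1 - (l : ℂ) ^ 2)) = ((-(1 - l ^ 2) : ℝ) : ℂ) := by push_cast; ring
  have hnn : 0 ≤ 1 - l ^ 2 := by nlinarith
  rw [e2, norm_mul, e3, Complex.norm_real, Real.norm_eq_abs, abs_neg, abs_of_nonneg hnn]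
  ring

lemma const_one_Sch : Sch (fun _ : ℂ => (1 : ℂ)) :=
  ⟨differentiableOn_const _, fun z _ => by simp, 1, by norm_num, by simp⟩

/-- The Moebius map violates the bound beyond `1 / (1 + 2 l)`. -/
lemma moebius_upper {l : ℝ} (h1 : 0 ≤ l) (h2 : l < 1) {r : ℝ} (hr0 : 0 ≤ r) (hr1 : r < 1)
    (h : ∀ f ∈ FClass l, maj l f r ≤ 1) : r ≤ 1 / (1 + 2 * l) := by
  have h3 := h _ (class_of_Sch h1 h2 const_one_Sch)
  rw [maj_class_of_Sch h1 h2 const_one_Sch hr0] at h3
  have e0 : ∀ n, tc (LL l (fun _ => 1)) n = (l : ℂ) ^ n := by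
    intro n
    have := tc_geom (a := (l : ℂ))
      (by rw [Complex.norm_real, Real.norm_eq_abs, abs_of_nonneg h1]; exact h2) n
    rw [← this]
    have e : LL l (fun _ => 1) = (fun z => (1 - (l : ℂ) * z)⁻¹) := by
      funext z
      simp [LL]
    rw [e]
  have e1 : ∀ n, ‖tc (LL l (fun _ => 1)) n‖ * r ^ n = (l * r) ^ n := by
    intro n
    rw [e0, norm_pow, Complex.norm_real, Real.norm_eq_abs, abs_of_nonneg h1, mul_pow]
  simp_rw [e1] at h3
  have hlr : l * r < 1 := by nlinarith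
  rw [tsum_geometric_of_lt_one (by positivity) hlr] at h3
  have hpos : 0 < 1 - l * r := by linarith
  rw [le_div_iff₀ (by linarith)]
  have h4 : (1 - l ^ 2) * r * (1 - l * r)⁻¹ ≤ 1 - l := by linarith
  rw [← div_eq_mul_inv, div_le_iff₀ hpos] at h4
  have h5 : (1 - l) * ((1 + l) * r) ≤ (1 - l) * (1 - l * r) := by nlinarith
  have h6 := le_of_mul_le_mul_left h5 (by linarith)
  linarith

lemma BB_le {l : ℝ} (h1 : 0 < l) (h2 : l < 1) : BB l ≤ 1 / (1 + 2 * l) := by
  refine csSup_le ⟨0, le_refl _, by norm_num, fun f _ => ?_⟩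
    (fun r hr => moebius_upper h1.le h2 hr.1 hr.2.1 hr.2.2)
  simp only [maj]
  simp only [ne_eq, Nat.add_eq_zero_iff, one_ne_zero, and_false, not_false_eq_true, zero_pow,
    mul_zero, tsum_zero, add_zero]
  linarith

/-- The value of the best constant is the Moebius value exactly when the property holds. -/
lemma BB_eq_iff {l : ℝ} (h1 : 0 < l) (h2 : l < 1) : BB l = 1 / (1 + 2 * l) ↔ EE l := by
  have hr0 : 0 < 1 / (1 + 2 * l) := by positivity
  have hr1 : 1 / (1 + 2 * l) < 1 := by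
    rw [div_lt_one (by linarith)]; linarith
  constructor
  · intro hB g hg N
    have hnn : 0 < 1 - l ^ 2 := by nlinarith
    have hL := LL_diff h1.le h2 hg.1 hg.2.1
    -- bound for every smaller radius
    have key : ∀ r, 0 < r → r < 1 / (1 + 2 * l) →
        ∑ n ∈ Finset.range N, ‖tc (LL l g) n‖ * r ^ n ≤ 1 / ((1 + l) * r) := by
      intro r hrp hrl
      rw [← hB] at hrl
      have hne : {r : ℝ | 0 ≤ r ∧ r < 1 ∧ ∀ f ∈ FClass l, maj l f r ≤ 1}.Nonempty := by
        refine ⟨0, le_refl _, by norm_num, fun f _ => ?_⟩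
        simp only [maj]
        simp only [ne_eq, Nat.add_eq_zero_iff, one_ne_zero, and_false, not_false_eq_true,
          zero_pow, mul_zero, tsum_zero, add_zero]
        linarith
      obtain ⟨s, hs, hrs⟩ := exists_lt_of_lt_csSup hne hrl
      have hsp : 0 < s := hrp.trans hrs
      have h3 := hs.2.2 _ (class_of_Sch h1.le h2 hg)
      rw [maj_class_of_Sch h1.le h2 hg hs.1] at h3
      have hsum : Summable (fun n => ‖tc (LL l g) n‖ * s ^ n) := tc_summable hL hs.1 hs.2.1
      have h4 := hsum.sum_le_tsum (Finset.range N) (fun n _ => by positivity)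
      have h5 : (1 - l ^ 2) * s * ∑ n ∈ Finset.range N, ‖tc (LL l g) n‖ * s ^ n ≤ 1 - l := by
        have := mul_le_mul_of_nonneg_left h4 (show 0 ≤ (1 - l ^ 2) * s by positivity)
        linarith
      have h6 : ∑ n ∈ Finset.range N, ‖tc (LL l g) n‖ * r ^ n ≤
          ∑ n ∈ Finset.range N, ‖tc (LL l g) n‖ * s ^ n := by
        refine Finset.sum_le_sum (fun n _ => ?_)
        gcongr
      have h7 : (1 + l) * s * ∑ n ∈ Finset.range N, ‖tc (LL l g) n‖ * s ^ n ≤ 1 := by
        have e : (1 - l) * ((1 + l) * s * ∑ n ∈ Finset.range N, ‖tc (LL l g) n‖ * s ^ n) ≤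
            (1 - l) * 1 := by
          calc (1 - l) * ((1 + l) * s * ∑ n ∈ Finset.range N, ‖tc (LL l g) n‖ * s ^ n) =
              (1 - l ^ 2) * s * ∑ n ∈ Finset.range N, ‖tc (LL l g) n‖ * s ^ n := by ring
            _ ≤ 1 - l := h5
            _ = (1 - l) * 1 := by ring
        exact le_of_mul_le_mul_left e (by linarith)
      rw [le_div_iff₀ (by positivity)]
      have h8 : 0 ≤ ∑ n ∈ Finset.range N, ‖tc (LL l g) n‖ * r ^ n :=
        Finset.sum_nonneg (fun n _ => by positivity)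
      calc (∑ n ∈ Finset.range N, ‖tc (LL l g) n‖ * r ^ n) * ((1 + l) * r)
          ≤ (∑ n ∈ Finset.range N, ‖tc (LL l g) n‖ * s ^ n) * ((1 + l) * s) := by
            gcongr
        _ ≤ 1 := by linarith
    set r0 := 1 / (1 + 2 * l) with hr0d
    have hc1 : Continuous (fun r : ℝ => ∑ n ∈ Finset.range N, ‖tc (LL l g) n‖ * r ^ n) := by
      fun_prop
    have hc2 : ContinuousAt (fun r : ℝ => 1 / ((1 + l) * r)) r0 := by
      refine ContinuousAt.div continuousAt_const (by fun_prop) ?_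
      positivity
    have l1 := (hc1.tendsto r0).mono_left (nhdsWithin_le_nhds (s := Iio r0))
    have l2 := hc2.tendsto.mono_left (nhdsWithin_le_nhds (s := Iio r0))
    have hval : 1 / (1 - l * r0) = 1 / ((1 + l) * r0) := by
      congr 1
      have hrl : r0 * (1 + 2 * l) = 1 := by rw [hr0d]; field_simp
      linarith
    rw [hval]
    refine le_of_tendsto_of_tendsto l1 l2 ?_
    have : Ioo 0 r0 ∈ 𝓝[<] r0 := Ioo_mem_nhdsLT hr0
    filter_upwards [this] with r hr using key r hr.1 hr.2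
  · intro h
    refine le_antisymm (BB_le h1 h2) ?_
    exact le_csSup ⟨1, fun r hr => hr.2.1.le⟩
      ⟨hr0.le, hr1, fun f hf => maj_le_of_EE h1 h2 h hf⟩

end Pool.Agent.P187f6b
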