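import Mathlib
import Pool.Agent.Lib.P187f6b.Threshold

/-!
# Failure of the property at `11 / 30`
-/

set_option autoImplicit false

open Complex Metric Set Filter Topology

namespace Pool.Agent.P187f6b

/-- The unimodular number of the test function. -/
noncomputable def uu : ℂ := ⟨-119/169, 120/169⟩

/-- The test function. -/
noncomputable def gg (z : ℂ) : ℂ := ((11/13 : ℝ) - uu * z) / (1 - (11/13 : ℝ) * (uu * z))

lemma norm_uu : ‖uu‖ = 1 := by
  have h : Complex.normSq uu = 1 := by
    simp only [uu, Complex.normSq_apply]; norm_num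
  rw [Complex.normSq_eq_norm_sq] at h
  nlinarith [norm_nonneg uu, sq_nonneg (‖uu‖ - 1)]

lemma gg_Sch : Sch gg := by
  have hu : ∀ z : ℂ, ‖z‖ < 1 → ‖uu * z‖ < 1 := fun z hz => by rw [norm_mul, norm_uu, one_mul]; exact hz
  have hne : ∀ z ∈ ball (0 : ℂ) 1, 1 - ((11/13 : ℝ) : ℂ) * (uu * z) ≠ 0 := by
    intro z hz
    have hz' : ‖z‖ < 1 := by simpa using hz
    refine one_sub_ne ?_
    rw [norm_mul, Complex.norm_real, Real.norm_eq_abs]
    have := hu z hz'
    rw [abs_of_pos (by norm_num)]
    linarith [norm_nonneg (uu * z)]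
  refine ⟨?_, ?_, 11/13, by norm_num, ?_⟩
  · refine DifferentiableOn.div ?_ ?_ hne
    · exact (differentiableOn_const _).sub ((differentiableOn_const _).mul differentiableOn_id)
    · exact (differentiableOn_const _).sub
        ((differentiableOn_const _).mul ((differentiableOn_const _).mul differentiableOn_id))
  · intro z hz
    exact mobius_norm_le (by norm_num) (by norm_num) (hu z hz).le
  · simp [gg]

/-- The reduced function solves a linear equation. -/
lemma LL_gg {z : ℂ} (hz : ‖z‖ < 1) : LL (11/30) gg z = (11/13 : ℂ) +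
    z * (-uu + (11/13) * (uu + 11/30) * LL (11/30) gg z + -((11/30) * uu) * z * LL (11/30) gg z) := by
  have hu : ‖uu * z‖ < 1 := by rw [norm_mul, norm_uu, one_mul]; exact hz
  have h1 : 1 - (11/13 : ℂ) * (uu * z) ≠ 0 := by
    refine one_sub_ne ?_
    rw [norm_mul]
    have : ‖(11/13 : ℂ)‖ = 11/13 := by norm_num
    rw [this]
    linarith [norm_nonneg (uu * z)]
  have h2 := den_ne (a := 11/30) (by norm_num) (by norm_num) hz (gg_Sch.2.1 z hz)
  simp only [LL, gg] at h2 ⊢
  push_cast at h2 ⊢
  obtain ⟨D, hD⟩ : ∃ D : ℂ, D = 1 - (11/13 : ℂ) * (uu * z) := ⟨_, rfl⟩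
  rw [← hD] at h1 h2 ⊢
  have h3 : D - 11/30 * z * (11/13 - uu * z) ≠ 0 := by
    intro h
    apply h2
    field_simp
    linear_combination 390 * h
  have e : (11/13 - uu * z) / D / (1 - 11/30 * z * ((11/13 - uu * z) / D)) =
      (11/13 - uu * z) / (D - 11/30 * z * (11/13 - uu * z)) := by
    rw [div_div]
    congr 1
    field_simp
  rw [e]
  obtain ⟨F, hF⟩ : ∃ F : ℂ, F = D - 11/30 * z * (11/13 - uu * z) := ⟨_, rfl⟩
  rw [← hF] at h3 ⊢
  field_simp
  rw [hF, hD]
  ring

lemma LL_gg_diff : DifferentiableOn ℂ (LL (11/30) gg) (ball 0 1) :=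
  LL_diff (by norm_num) (by norm_num) gg_Sch.1 gg_Sch.2.1

lemma tcL_one : tc (LL (11/30) gg) 1 = -uu + (11/13) * (uu + 11/30) * tc (LL (11/30) gg) 0 := by
  have hL := LL_gg_diff
  have hM : DifferentiableOn ℂ (fun z : ℂ => -uu + (11/13) * (uu + 11/30) * LL (11/30) gg z +
      -((11/30) * uu) * z * LL (11/30) gg z) (ball 0 1) :=
    ((differentiableOn_const _).add ((differentiableOn_const _).mul hL)).add
      (((differentiableOn_const _).mul differentiableOn_id).mul hL)
  have h := tc_shift (f := LL (11/30) gg) (c := 11/13) (k := 1) hM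
    (fun z hz => by rw [one_mul]; exact LL_gg hz) 0
  rw [zero_add, one_mul, tc_zero] at h
  rw [h, tc_zero]
  simp

lemma tcL_rec (n : ℕ) : tc (LL (11/30) gg) (n + 2) =
    (11/13) * (uu + 11/30) * tc (LL (11/30) gg) (n + 1) - (11/30) * uu * tc (LL (11/30) gg) n := by
  have hL := LL_gg_diff
  have hA : DifferentiableOn ℂ (fun z : ℂ => -uu + (11/13) * (uu + 11/30) * LL (11/30) gg z)
      (ball 0 1) := (differentiableOn_const _).add ((differentiableOn_const _).mul hL)
  have hB : DifferentiableOn ℂ (fun z : ℂ => -((11/30) * uu) * z * LL (11/30) gg z)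
      (ball 0 1) := ((differentiableOn_const _).mul differentiableOn_id).mul hL
  have hM : DifferentiableOn ℂ (fun z : ℂ => -uu + (11/13) * (uu + 11/30) * LL (11/30) gg z +
      -((11/30) * uu) * z * LL (11/30) gg z) (ball 0 1) := hA.add hB
  have h := tc_shift (f := LL (11/30) gg) (c := 11/13) (k := 1) hM
    (fun z hz => by rw [one_mul]; exact LL_gg hz) (n + 1)
  rw [one_mul, tc_add hA hB] at h
  have h1 : tc (fun z : ℂ => -uu + (11/13) * (uu + 11/30) * LL (11/30) gg z) (n + 1) =
      (11/13) * (uu + 11/30) * tc (LL (11/30) gg) (n + 1) := by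
    refine tc_eq (c := fun n => (Nat.casesOn n (-uu + (11/13) * (uu + 11/30) * tc (LL (11/30) gg) 0)
      (fun m => (11/13) * (uu + 11/30) * tc (LL (11/30) gg) (m + 1)) : ℂ)) (fun z hz => ?_) (n + 1)
    have h2 := (tc_hasSum hL hz).mul_left ((11/13) * (uu + 11/30))
    have h3 : HasSum (fun n : ℕ => if n = 0 then -uu else 0) (-uu) := hasSum_ite_eq 0 (-uu)
    refine (h3.add h2).congr_fun (fun m => ?_)
    rcases m with _ | m
    · simp
    · simp; ring
  have h4 : tc (fun z : ℂ => -((11/30) * uu) * z * LL (11/30) gg z) (n + 1) =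
      -((11/30) * uu) * tc (LL (11/30) gg) n :=
    tc_shift (c := 0) (k := -((11/30) * uu)) hL (fun z _ => by ring) n
  rw [h1, h4] at h
  rw [h]
  ring

lemma norm_ge {x y s : ℝ} (hs : s ^ 2 ≤ x ^ 2 + y ^ 2) : s ≤ ‖(⟨x, y⟩ : ℂ)‖ := by
  refine (abs_le_of_sq_le_sq' ?_ (norm_nonneg _)).2
  rw [← Complex.normSq_eq_norm_sq, Complex.normSq_apply]
  nlinarith

lemma cf0 : tc (LL (11/30) gg) 0 = ⟨(11/13), (0/1)⟩ := by
  rw [LL_zero]
  simp only [gg]
  apply Complex.ext <;> simp

lemma cf1 : tc (LL (11/30) gg) 1 = ⟨(396299/856830), (-5760/28561)⟩ := by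
  rw [tcL_one, cf0]
  apply Complex.ext <;> simp [uu] <;> norm_num

lemma cf2 : tc (LL (11/30) gg) 2 = ⟨(11721631691/56473665300), (7227264/62748517)⟩ := by
  rw [tcL_rec, cf1, cf0]
  apply Complex.ext <;> simp [uu] <;> norm_num

lemma cf3 : tc (LL (11/30) gg) 3 = ⟨(-229146833025781/3722179279923000), (-55606754016/689292459245)⟩ := by
  rw [tcL_rec, cf2, cf1]
  apply Complex.ext <;> simp [uu] <;> norm_num

lemma cf4 : tc (LL (11/30) gg) 4 = ⟨(36707324717021808971/245328836339724930000), (-868947410210176/22715632994418975)⟩ := by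
  rw [tcL_rec, cf3, cf2]
  apply Complex.ext <;> simp [uu] <;> norm_num

lemma cf5 : tc (LL (11/30) gg) 5 = ⟨(-915863408043053336710261/16169623603151270136300000), (14376107704350332248/149718737066215464225)⟩ := by
  rw [tcL_rec, cf4, cf3]
  apply Complex.ext <;> simp [uu] <;> norm_num

lemma cf6 : tc (LL (11/30) gg) 6 = ⟨(-13689851871875016399240951349/1065739891683700214683533000000), (-906885152720030995641592/8223301633361884372558125)⟩ := by
  rw [tcL_rec, cf5, cf4]
  apply Complex.ext <;> simp [uu] <;> norm_num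

lemma cf7 : tc (LL (11/30) gg) 7 = ⟨(5640749761918628658954612285646859/70242916260872681149791660030000000), (51472416275867898185816572906/812996715982322698492959028125)⟩ := by
  rw [tcL_rec, cf6, cf5]
  apply Complex.ext <;> simp [uu] <;> norm_num

lemma cf8 : tc (LL (11/30) gg) 8 = ⟨(-430559625272644629500168143182678137269/4629710610754118414582768312577300000000), (135028556328312491711596133304868/26792306775197444528835464771859375)⟩ := by
  rw [tcL_rec, cf7, cf6]
  apply Complex.ext <;> simp [uu] <;> norm_num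

lemma cf9 : tc (LL (11/30) gg) 9 = ⟨(18536061215544587295760379945165700944573579/305144226354803944705150259481969843000000000), (-36421933555256977266715673158706859023/588626979851087856298515161037750468750)⟩ := by
  rw [tcL_rec, cf8, cf7]
  apply Complex.ext <;> simp [uu] <;> norm_num

lemma cf10 : tc (LL (11/30) gg) 10 = ⟨(-57696105599339585955426998805553497293192596789/20112055959045127995516453602456632352130000000000), (185477943110107737180950572431884716794409/2327784254519112036518108055839888003718750)⟩ := by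
  rw [tcL_rec, cf9, cf8]
  apply Complex.ext <;> simp [uu] <;> norm_num

lemma cf11 : tc (LL (11/30) gg) 11 = ⟨(-62939250330477785461188555595806612805283303173562101/1325585608260664386184489456937916638328888300000000000), (-431640291790365092984324030218132634169260031311/7671213010767733716345425098020350916255140625000)⟩ := by
  rw [tcL_rec, cf10, cf9]
  apply Complex.ext <;> simp [uu] <;> norm_num

lemma cf12 : tc (LL (11/30) gg) 12 = ⟨(5886016731220202312999796497081464523783113579836588982091/87369347440460389693419700106778085632257027853000000000000), (31107448844436085326666049446284934562816195546958/3511178121803481453085603945906398117294279990234375)⟩ := by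
  rw [tcL_rec, cf11, cf10]
  apply Complex.ext <;> simp [uu] <;> norm_num

/-- The property fails at `11 / 30`. -/
lemma not_EE_low : ¬ EE (11/30) := by
  intro h
  have h1 := h gg gg_Sch 13
  have e : (1 / (1 + 2 * (11/30)) : ℝ) = 15/26 := by norm_num
  rw [e] at h1
  have s0 : (4230769/5000000 : ℝ) ≤ ‖tc (LL (11/30) gg) 0‖ := by
    rw [cf0]; exact norm_ge (by norm_num)
  have s1 : (5045739/10000000 : ℝ) ≤ ‖tc (LL (11/30) gg) 1‖ := by
    rw [cf1]; exact norm_ge (by norm_num)
  have s2 : (2373749/10000000 : ℝ) ≤ ‖tc (LL (11/30) gg) 2‖ := by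
    rw [cf2]; exact norm_ge (by norm_num)
  have s3 : (253697/2500000 : ℝ) ≤ ‖tc (LL (11/30) gg) 3‖ := by
    rw [cf3]; exact norm_ge (by norm_num)
  have s4 : (2471/16000 : ℝ) ≤ ‖tc (LL (11/30) gg) 4‖ := by
    rw [cf4]; exact norm_ge (by norm_num)
  have s5 : (1114817/10000000 : ℝ) ≤ ‖tc (LL (11/30) gg) 5‖ := by
    rw [cf5]; exact norm_ge (by norm_num)
  have s6 : (1110279/10000000 : ℝ) ≤ ‖tc (LL (11/30) gg) 6‖ := by
    rw [cf6]; exact norm_ge (by norm_num)
  have s7 : (1022597/10000000 : ℝ) ≤ ‖tc (LL (11/30) gg) 7‖ := by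
    rw [cf7]; exact norm_ge (by norm_num)
  have s8 : (931357/10000000 : ℝ) ≤ ‖tc (LL (11/30) gg) 8‖ := by
    rw [cf8]; exact norm_ge (by norm_num)
  have s9 : (8671/100000 : ℝ) ≤ ‖tc (LL (11/30) gg) 9‖ := by
    rw [cf9]; exact norm_ge (by norm_num)
  have s10 : (199329/2500000 : ℝ) ≤ ‖tc (LL (11/30) gg) 10‖ := by
    rw [cf10]; exact norm_ge (by norm_num)
  have s11 : (368117/5000000 : ℝ) ≤ ‖tc (LL (11/30) gg) 11‖ := by
    rw [cf11]; exact norm_ge (by norm_num)
  have s12 : (339747/5000000 : ℝ) ≤ ‖tc (LL (11/30) gg) 12‖ := by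
    rw [cf12]; exact norm_ge (by norm_num)
  have m0 := mul_le_mul_of_nonneg_right s0 (show (0 : ℝ) ≤ (15/26) ^ 0 by positivity)
  have m1 := mul_le_mul_of_nonneg_right s1 (show (0 : ℝ) ≤ (15/26) ^ 1 by positivity)
  have m2 := mul_le_mul_of_nonneg_right s2 (show (0 : ℝ) ≤ (15/26) ^ 2 by positivity)
  have m3 := mul_le_mul_of_nonneg_right s3 (show (0 : ℝ) ≤ (15/26) ^ 3 by positivity)
  have m4 := mul_le_mul_of_nonneg_right s4 (show (0 : ℝ) ≤ (15/26) ^ 4 by positivity)
  have m5 := mul_le_mul_of_nonneg_right s5 (show (0 : ℝ) ≤ (15/26) ^ 5 by positivity)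
  have m6 := mul_le_mul_of_nonneg_right s6 (show (0 : ℝ) ≤ (15/26) ^ 6 by positivity)
  have m7 := mul_le_mul_of_nonneg_right s7 (show (0 : ℝ) ≤ (15/26) ^ 7 by positivity)
  have m8 := mul_le_mul_of_nonneg_right s8 (show (0 : ℝ) ≤ (15/26) ^ 8 by positivity)
  have m9 := mul_le_mul_of_nonneg_right s9 (show (0 : ℝ) ≤ (15/26) ^ 9 by positivity)
  have m10 := mul_le_mul_of_nonneg_right s10 (show (0 : ℝ) ≤ (15/26) ^ 10 by positivity)
  have m11 := mul_le_mul_of_nonneg_right s11 (show (0 : ℝ) ≤ (15/26) ^ 11 by positivity)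
  have m12 := mul_le_mul_of_nonneg_right s12 (show (0 : ℝ) ≤ (15/26) ^ 12 by positivity)
  simp only [Finset.sum_range_succ, Finset.sum_range_zero, zero_add] at h1
  norm_num at h1 m0 m1 m2 m3 m4 m5 m6 m7 m8 m9 m10 m11 m12
  linarith

end Pool.Agent.P187f6b
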