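import Mathlib
import Pool.Agent.Lib.P187f6b.Defs
import Pool.Agent.Lib.P187f6b.Main

/-!
# Test functions for the upper bound
-/

set_option autoImplicit false

open Complex Metric Set

namespace Pool.Agent.P187f6b

/-- The two first terms and the rest of the series at a real point. -/
lemma maj_ge {l : ℝ} {f : ℂ → ℂ} (hfd : DifferentiableOn ℂ f (ball 0 1)) (hf0 : f 0 = l)
    {r : ℝ} (hr0 : 0 ≤ r) (hr1 : r < 1) {x a : ℝ} (hx : f r = x) (ha : tc f 1 = a) (ha0 : 0 ≤ a) :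
    2 * l + 2 * a * r - x ≤ maj l f r := by
  have hs := tc_summable hfd hr0 hr1
  have hs1 : Summable (fun n => ‖tc f (n + 1)‖ * r ^ (n + 1)) := (summable_nat_add_iff 1).2 hs
  have hs2 : Summable (fun n => ‖tc f (n + 1 + 1)‖ * r ^ (n + 1 + 1)) :=
    (summable_nat_add_iff 1).2 hs1
  have hz : ‖(r : ℂ)‖ < 1 := by
    rw [Complex.norm_real, Real.norm_eq_abs, abs_of_nonneg hr0]; exact hr1
  have hf := tc_hasSum hfd hz
  have hf1 := (hasSum_nat_add_iff' 1).2 hf
  have hf2 := (hasSum_nat_add_iff' 1).2 hf1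
  simp only [Finset.range_one, Finset.sum_singleton, pow_zero, mul_one, zero_add, pow_one] at hf2
  rw [tc_zero, hf0, hx, ha] at hf2
  have hle : ‖(x : ℂ) - l - a * r‖ ≤ ∑' n, ‖tc f (n + 1 + 1)‖ * r ^ (n + 1 + 1) := by
    rw [← hf2.tsum_eq]
    have hnorm : ∀ n, ‖tc f (n + 1 + 1) * (r : ℂ) ^ (n + 1 + 1)‖ =
        ‖tc f (n + 1 + 1)‖ * r ^ (n + 1 + 1) := by
      intro n
      rw [norm_mul, norm_pow, Complex.norm_real, Real.norm_eq_abs, abs_of_nonneg hr0]
    rw [← tsum_congr hnorm]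
    refine norm_tsum_le_tsum_norm ?_
    exact hs2.congr (fun n => (hnorm n).symm)
  have hre : l + a * r - x ≤ ‖(x : ℂ) - l - a * r‖ := by
    have e : (x : ℂ) - l - a * r = ((x - l - a * r : ℝ) : ℂ) := by push_cast; ring
    rw [e, Complex.norm_real, Real.norm_eq_abs]
    have := neg_abs_le (x - l - a * r)
    linarith
  rw [maj_eq, hs1.tsum_eq_zero_add]
  simp only [zero_add, pow_one]
  rw [ha, Complex.norm_real, Real.norm_eq_abs, abs_of_nonneg ha0]
  linarith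

/-- The test functions. -/
lemma test_fun {l : ℝ} (h1 : 0 ≤ l) (h2 : l < 1) {γ : ℝ} (hγ0 : 0 ≤ γ) (hγ1 : γ ≤ 1) {r : ℝ}
    (hr0 : 0 ≤ r) (hr1 : r < 1) :
    ∃ f ∈ FClass l, 2 * l + 2 * ((1 - l ^ 2) * γ) * r -
      (l + γ * (1 - l) * r - r ^ 2) / (1 - γ * (1 - l) * r - l * r ^ 2) ≤ maj l f r := by
  set g : ℂ → ℂ := fun z => (z - γ) / (1 - γ * z) with hg
  have hgz : ∀ z : ℂ, ‖z‖ < 1 → 1 - (γ : ℂ) * z ≠ 0 := by
    intro z hz
    refine one_sub_ne ?_
    rw [norm_mul, Complex.norm_real, Real.norm_eq_abs, abs_of_nonneg hγ0]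
    nlinarith [norm_nonneg z]
  have hgd : DifferentiableOn ℂ g (ball 0 1) :=
    (differentiableOn_id.sub (differentiableOn_const _)).div
      ((differentiableOn_const _).sub ((differentiableOn_const _).mul differentiableOn_id))
      (fun z hz => hgz z (by simpa using hz))
  have hgb : ∀ z : ℂ, ‖z‖ < 1 → ‖g z‖ ≤ 1 := by
    intro z hz
    simp only [hg]
    rw [norm_div, div_le_one (norm_pos_iff.2 (hgz z hz))]
    refine (abs_le_of_sq_le_sq' ?_ (norm_nonneg _)).2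
    rw [← Complex.normSq_eq_norm_sq, ← Complex.normSq_eq_norm_sq, Complex.normSq_apply,
      Complex.normSq_apply]
    have h4 : z.re * z.re + z.im * z.im ≤ 1 := by
      rw [← Complex.normSq_apply, Complex.normSq_eq_norm_sq]
      exact pow_le_one₀ (norm_nonneg _) hz.le
    simp only [Complex.sub_re, Complex.sub_im, Complex.ofReal_re, Complex.ofReal_im,
      Complex.re_ofReal_mul, Complex.im_ofReal_mul, Complex.one_re, Complex.one_im]
    nlinarith [mul_nonneg (sub_nonneg.2 h4) (show 0 ≤ 1 - γ * γ by nlinarith)]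
  have hL := LL_diff h1 h2 hgd hgb
  set f : ℂ → ℂ := fun z => (l : ℂ) + (-(1 - (l : ℂ) ^ 2)) * z * LL l g z with hf
  have hfd : DifferentiableOn ℂ f (ball 0 1) :=
    (differentiableOn_const _).add (((differentiableOn_const _).mul differentiableOn_id).mul hL)
  have hfz : ∀ z : ℂ, ‖z‖ < 1 → f z = (l - z * g z) / (1 - l * z * g z) := by
    intro z hz
    have h3 := den_ne h1 h2 hz (hgb z hz)
    simp only [hf, LL]
    field_simp
    ring
  have hf0 : f 0 = l := by simp [hf]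
  have hmem : f ∈ FClass l := by
    refine ⟨hfd, fun z hz => ?_, hf0⟩
    have hz' : ‖z‖ < 1 := by simpa using hz
    rw [hfz z hz', norm_div]
    have h3 := den_ne h1 h2 hz' (hgb z hz')
    rw [div_lt_one (norm_pos_iff.2 h3)]
    refine (abs_lt_of_sq_lt_sq' ?_ (norm_nonneg _)).2
    rw [mul_assoc (l : ℂ) z (g z)]
    have hzg : ‖z * g z‖ < 1 := by
      rw [norm_mul]
      have := hgb z hz'
      nlinarith [norm_nonneg z, norm_nonneg (g z)]
    rw [← Complex.normSq_eq_norm_sq, ← Complex.normSq_eq_norm_sq, Complex.normSq_apply,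
      Complex.normSq_apply]
    have h4 : (z * g z).re * (z * g z).re + (z * g z).im * (z * g z).im < 1 := by
      rw [← Complex.normSq_apply, Complex.normSq_eq_norm_sq]
      exact pow_lt_one₀ (norm_nonneg _) hzg (by norm_num)
    rw [Complex.sub_re, Complex.sub_im, Complex.sub_re, Complex.sub_im, Complex.ofReal_re,
      Complex.ofReal_im, Complex.re_ofReal_mul, Complex.im_ofReal_mul, Complex.one_re,
      Complex.one_im]
    nlinarith [mul_pos (sub_pos.2 h4) (show 0 < 1 - l * l by nlinarith)]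
  have htc : tc f 1 = (((1 - l ^ 2) * γ : ℝ) : ℂ) := by
    have e2 : tc f (0 + 1) = (-(1 - (l : ℂ) ^ 2)) * tc (LL l g) 0 :=
      tc_shift hL (fun z _ => rfl) 0
    rw [zero_add, LL_zero] at e2
    rw [e2]
    simp only [hg]
    push_cast
    simp
    ring
  have hrn : ‖(r : ℂ)‖ < 1 := by
    rw [Complex.norm_real, Real.norm_eq_abs, abs_of_nonneg hr0]; exact hr1
  have hfr : f r = (((l + γ * (1 - l) * r - r ^ 2) / (1 - γ * (1 - l) * r - l * r ^ 2) : ℝ) : ℂ) := by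
    rw [hfz r hrn]
    have h3 := den_ne h1 h2 hrn (hgb r hrn)
    have h5 := hgz r hrn
    simp only [hg] at h3 ⊢
    push_cast
    obtain ⟨D, hD⟩ : ∃ D : ℂ, D = 1 - (γ : ℂ) * r := ⟨_, rfl⟩
    rw [← hD] at h3 h5 ⊢
    have h6 : (1 : ℂ) - γ * (1 - l) * r - l * r ^ 2 ≠ 0 := by
      intro h7
      apply h3
      field_simp
      rw [hD]
      linear_combination h7
    rw [div_eq_div_iff h3 h6]
    field_simp
    rw [hD]
    ring
  refine ⟨f, hmem, ?_⟩
  have hnn : 0 ≤ (1 - l ^ 2) * γ := by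
    have : 0 ≤ 1 - l ^ 2 := by nlinarith
    positivity
  exact maj_ge hfd hf0 hr0 hr1 hfr htc hnn

/-- The critical value is not exceeded. -/
lemma upper_of_maj_le {l : ℝ} (h1 : 0 < l) (h2 : l < 1/2) {r : ℝ} (hr0 : 0 ≤ r) (hr1 : r < 1)
    (h : ∀ f ∈ FClass l, maj l f r ≤ 1) :
    r ^ 2 ≤ √(1 - 2 * l ^ 2) / ((1 + l) * (√(1 - 2 * l ^ 2) + √(1 - l ^ 2))) := by
  by_contra hcon
  rw [not_le] at hcon
  have hA : 0 < 1 - 2 * l ^ 2 := by nlinarith
  have hC : 0 < 1 - l ^ 2 := by nlinarith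
  set sA := √(1 - 2 * l ^ 2) with hsA
  set sC := √(1 - l ^ 2) with hsC
  have hsA2 : sA ^ 2 = 1 - 2 * l ^ 2 := Real.sq_sqrt hA.le
  have hsC2 : sC ^ 2 = 1 - l ^ 2 := Real.sq_sqrt hC.le
  have hsA0 : 0 < sA := Real.sqrt_pos.2 hA
  have hsC0 : 0 < sC := Real.sqrt_pos.2 hC
  have hl : 0 < 1 + l := by linarith
  have hK : sA < ((1 + l) * r ^ 2) * (sA + sC) := by
    rw [div_lt_iff₀ (by positivity)] at hcon
    linarith
  set K := (1 + l) * r ^ 2 with hKd
  have hK0 : 0 ≤ K := by positivity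
  have hr2 : r ^ 2 < 1 := by nlinarith
  have hKl : K < 1 + l := by rw [hKd]; nlinarith
  -- the critical quadratic is positive
  have hTheta : 0 < l ^ 2 * K ^ 2 + 2 * (1 - 2 * l ^ 2) * K - (1 - 2 * l ^ 2) := by
    have e : l ^ 2 = (sC - sA) * (sC + sA) := by
      have : (sC - sA) * (sC + sA) = sC ^ 2 - sA ^ 2 := by ring
      rw [this, hsC2, hsA2]; ring
    have hCA : 0 < sC - sA := by
      have : 0 < (sC - sA) * (sC + sA) := by rw [← e]; positivity
      exact (mul_pos_iff_of_pos_right (by positivity)).1 this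
    rw [← hsA2]
    have hfac : l ^ 2 * K ^ 2 + 2 * sA ^ 2 * K - sA ^ 2 =
        (K * (sA + sC) - sA) * (K * (sC - sA) + sA) := by
      rw [e]; ring
    rw [hfac]
    apply mul_pos
    · linarith
    · positivity
  -- lower bound for `K`
  have hKlow : 2 * (1 - 2 * l ^ 2) ≤ K * (4 - 7 * l ^ 2) := by
    have hx : 2 * sA * sC ≤ sA ^ 2 + sC ^ 2 := by nlinarith [sq_nonneg (sA - sC)]
    have : sA * (sA + sA) < K * (sA + sC) * (sA + sA) := by nlinarith
    have h8 : K * ((sA + sC) * (sA + sA)) ≤ K * (4 - 7 * l ^ 2) := by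
      apply mul_le_mul_of_nonneg_left _ hK0
      nlinarith
    nlinarith
  -- the parameter
  set q := (1 - l * K) / (2 * (1 + l)) with hq
  have hlK : l * K < 1 := by nlinarith
  have hq0 : 0 < q := by rw [hq]; apply div_pos <;> nlinarith
  have hrpos : 0 < r := by
    rcases hr0.lt_or_eq with h3 | h3
    · exact h3
    · exfalso
      rw [hKd, ← h3] at hK
      simp at hK
      linarith
  have hq1 : q ≤ (1 - l) * r := by
    rw [hq, div_le_iff₀ (by positivity)]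
    have hsq : (1 - l * K) ^ 2 ≤ ((1 - l) * r * (2 * (1 + l))) ^ 2 := by
      have e : ((1 - l) * r * (2 * (1 + l))) ^ 2 = 4 * (1 - l) ^ 2 * (1 + l) * K := by
        rw [hKd]; ring
      rw [e]
      have hD : 0 < 4 - 7 * l ^ 2 := by nlinarith
      have hx1 : (1 - l * K) * (4 - 7 * l ^ 2) ≤ (4 - 7 * l ^ 2) - l * (2 * (1 - 2 * l ^ 2)) := by
        nlinarith
      have hx2 : 0 ≤ (1 - l * K) * (4 - 7 * l ^ 2) := by
        apply mul_nonneg <;> linarith
      have hx3 : ((1 - l * K) * (4 - 7 * l ^ 2)) ^ 2 ≤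
          ((4 - 7 * l ^ 2) - l * (2 * (1 - 2 * l ^ 2))) ^ 2 := by
        apply pow_le_pow_left₀ hx2 hx1
      have hx4 : ((4 - 7 * l ^ 2) - l * (2 * (1 - 2 * l ^ 2))) ^ 2 ≤
          4 * (1 - l) ^ 2 * (1 + l) * (2 * (1 - 2 * l ^ 2)) * (4 - 7 * l ^ 2) := by
        have hb : 0 ≤ 1 - 2 * l := by linarith
        have hdiff : 4 * (1 - l) ^ 2 * (1 + l) * (2 * (1 - 2 * l ^ 2)) * (4 - 7 * l ^ 2) -
            ((4 - 7 * l ^ 2) - l * (2 * (1 - 2 * l ^ 2))) ^ 2 =
            16 * (l ^ 0 * (1 - 2 * l) ^ 7) + 208 * (l ^ 1 * (1 - 2 * l) ^ 6) +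
            1052 * (l ^ 2 * (1 - 2 * l) ^ 5) + 2612 * (l ^ 3 * (1 - 2 * l) ^ 4) +
            3335 * (l ^ 4 * (1 - 2 * l) ^ 3) + 2138 * (l ^ 5 * (1 - 2 * l) ^ 2) +
            596 * (l ^ 6 * (1 - 2 * l) ^ 1) + 40 * (l ^ 7 * (1 - 2 * l) ^ 0) := by ring
        have hpos : 0 ≤ 16 * (l ^ 0 * (1 - 2 * l) ^ 7) + 208 * (l ^ 1 * (1 - 2 * l) ^ 6) +
            1052 * (l ^ 2 * (1 - 2 * l) ^ 5) + 2612 * (l ^ 3 * (1 - 2 * l) ^ 4) +
            3335 * (l ^ 4 * (1 - 2 * l) ^ 3) + 2138 * (l ^ 5 * (1 - 2 * l) ^ 2) +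
            596 * (l ^ 6 * (1 - 2 * l) ^ 1) + 40 * (l ^ 7 * (1 - 2 * l) ^ 0) := by positivity
        linarith
      have hx5 : 4 * (1 - l) ^ 2 * (1 + l) * (2 * (1 - 2 * l ^ 2)) * (4 - 7 * l ^ 2) ≤
          4 * (1 - l) ^ 2 * (1 + l) * (K * (4 - 7 * l ^ 2)) * (4 - 7 * l ^ 2) := by
        gcongr
      have hx6 : (4 - 7 * l ^ 2) ^ 2 * (1 - l * K) ^ 2 ≤
          (4 - 7 * l ^ 2) ^ 2 * (4 * (1 - l) ^ 2 * (1 + l) * K) := by nlinarith
      exact le_of_mul_le_mul_left hx6 (by positivity)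
    refine (abs_le_of_sq_le_sq' hsq ?_).2
    have : 0 < 1 - l := by linarith
    positivity
  set γ := q / ((1 - l) * r) with hγ
  have h1l : 0 < 1 - l := by linarith
  have hγ0 : 0 ≤ γ := by rw [hγ]; positivity
  have hγ1 : γ ≤ 1 := by rw [hγ]; exact div_le_one_of_le₀ hq1 (by positivity)
  have hγq : γ * (1 - l) * r = q := by rw [hγ]; field_simp
  obtain ⟨f, hf, hge⟩ := test_fun h1.le (by linarith) hγ0 hγ1 hr0 hr1
  have hle := h f hf
  rw [hγq] at hge
  have e1 : 2 * ((1 - l ^ 2) * γ) * r = 2 * (1 + l) * q := by rw [← hγq]; ring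
  rw [e1] at hge
  have hqe : 2 * (1 + l) * q = 1 - l * K := by rw [hq]; field_simp
  have hden : 0 < 1 - q - l * r ^ 2 := by
    have : q * (1 + l) * 2 = 1 - l * K := by linarith
    nlinarith
  have hfin : 2 * l + 2 * (1 + l) * q - 1 ≤ (l + q - r ^ 2) / (1 - q - l * r ^ 2) := by linarith
  rw [le_div_iff₀ hden] at hfin
  have e2 : (1 + l) * r ^ 2 = K := hKd.symm
  -- contradiction with the positivity of the critical quadratic
  nlinarith

end Pool.Agent.P187f6b
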